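import Pool.Agent.Lib.MP_d71b33_lc_h91.Sys

/-!
# Definitions used by several tasks (MP_d71b33_lc)
-/

namespace Pool.Agent.Bfly

variable {n : ℕ}

namespace Sys

variable (S : Sys n)

/-- number of copies and relays of T-structures at a node -/
def KR (g K : ℕ) : ℕ := 4 * K * (2 * (csm g + 14 + tau g) + 8)

/-- number of relays of conversions at a node, one direction -/
def KD (g K : ℕ) : ℕ := 64 * (K + 1) ^ 2 * (2 * (csm g + 14 + tau g) + 8)

/-- total number of relays or copies at a node -/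
def KT (g K : ℕ) : ℕ := 1 + KR g K + 2 * KD g K

/-- `u` is on a wall of the zone of `Y` -/
def onZone (Y : Core n) (u : Node n) : Prop :=
  S.inZ Y u.1 ∧ (u.2.val = S.lev (S.ze Y) ∧ Y.e ≠ S.m ∨ u.2.val = S.lev (S.zs Y) ∧ Y.s ≠ 0)

/-- length of conversions of scale `i` -/
def D (i : ℕ) : ℕ := 32 * cbg S.g * S.h i

/-- `4 ∑_{t ≤ i} D t` -/
def As (i : ℕ) : ℕ := 4 * ∑ t ∈ Finset.range (i + 1), S.D t

def kap (g : ℕ) : ℕ := 1000 * cbg g

/-- `v` is within distance `r` of the core `Q` -/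
def en (Q : Core n) (r : ℕ) (v : Node n) : Prop :=
  S.lev Q.s ≤ v.2.val + r ∧ v.2.val ≤ S.lev Q.e + r ∧ AgOut (S.lev Q.s - r) (S.lev Q.e + r) v.1 Q.b

noncomputable def dC (Q : Core n) (v : Node n) : ℕ := sInf {r | S.en Q r v}

/-- boundary term of the zone of `Q` -/
def EE (Q : Core n) (v : Node n) : ℕ :=
  max (if Q.s = 0 then 0 else S.As Q.i + 2 * S.D Q.i - kap S.g * (v.2.val - S.lev (S.zs Q)))
    (if Q.e = S.m then 0 else S.As Q.i + 2 * S.D Q.i - kap S.g * (S.lev (S.ze Q) - v.2.val))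

/-- potential of home copies -/
noncomputable def MH (v : Node n) : ℕ :=
  sInf {μ | ∀ P ∈ S.cores, S.As P.i - kap S.g * S.dC P v ≤ μ}

/-- potential of T-copies -/
noncomputable def MT (Q : Core n) (v : Node n) : ℕ :=
  sInf {μ | S.EE Q v ≤ μ ∧ ∀ P ∈ S.cores, Q.i < P.i →
    (S.As P.i - S.As Q.i) + S.EE Q v - kap S.g * S.dC P v ≤ μ}

/-- slowdown -/
def slow (g K : ℕ) : ℕ :=
  2 * KT g K + (2 * KT g K + 2 * KT g K * 4 + 2 * g * ((5 ^ (2 * g) * (2 * KT g K)) * 4)) *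
    (2 * (4 * kap g + 8) + 1)

end Sys

end Pool.Agent.Bfly
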