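import Pool.Agent.Lib.MP_d71b33_lc_h91.Sys

/-!
# Basic facts on frames, bits, rows (MP_d71b33_lc, task CO)
-/

namespace Pool.Agent.Bfly

open Set

variable {n : ℕ}

theorem Frame.lev_add_le (Φ : Frame n) {k l : ℕ} (h : k ≤ l) (hl : l ≤ Φ.m) :
    Φ.lev k + Φ.g * (l - k) ≤ Φ.lev l := by
  induction l, h using Nat.le_induction with
  | base => simp
  | succ l h ih =>
    have h1 := ih (by omega)
    have h2 := Φ.lev_lo l (by omega)
    have h3 : l + 1 - k = (l - k) + 1 := by omega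
    rw [h3, Nat.mul_add, Nat.mul_one]
    omega

theorem Frame.lev_mono (Φ : Frame n) {k l : ℕ} (h : k ≤ l) (hl : l ≤ Φ.m) : Φ.lev k ≤ Φ.lev l :=
  le_trans (Nat.le_add_right _ _) (Φ.lev_add_le h hl)

theorem Frame.lev_le_add (Φ : Frame n) {k l : ℕ} (h : k ≤ l) (hl : l ≤ Φ.m) :
    Φ.lev l ≤ Φ.lev k + 2 * Φ.g * (l - k) := by
  induction l, h using Nat.le_induction with
  | base => simp
  | succ l h ih =>
    have h1 := ih (by omega)
    have h2 := Φ.lev_hi l (by omega)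
    have h3 : l + 1 - k = (l - k) + 1 := by omega
    rw [h3, Nat.mul_add, Nat.mul_one]
    omega

theorem Frame.g_pos (Φ : Frame n) : 0 < Φ.g := by
  have := Φ.five_le_g
  omega

theorem Frame.lev_lt (Φ : Frame n) {k l : ℕ} (h : k < l) (hl : l ≤ Φ.m) : Φ.lev k < Φ.lev l := by
  have h1 := Φ.lev_add_le h.le hl
  have h2 : 0 < Φ.g * (l - k) := Nat.mul_pos Φ.g_pos (by omega)
  omega

theorem Frame.lev_inj (Φ : Frame n) {k l : ℕ} (hk : k ≤ Φ.m) (hl : l ≤ Φ.m)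
    (h : Φ.lev k = Φ.lev l) : k = l := by
  rcases lt_trichotomy k l with h1 | h1 | h1
  · have := Φ.lev_lt h1 hl
    omega
  · exact h1
  · have := Φ.lev_lt h1 hk
    omega

theorem Frame.lev_le_n (Φ : Frame n) {k : ℕ} (hk : k ≤ Φ.m) : Φ.lev k ≤ n := by
  have := Φ.lev_mono hk le_rfl
  rwa [Φ.lev_m] at this

theorem Frame.lev_le_lev_iff (Φ : Frame n) {k l : ℕ} (hk : k ≤ Φ.m) (hl : l ≤ Φ.m) :
    Φ.lev k ≤ Φ.lev l ↔ k ≤ l := by
  constructor
  · intro h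
    by_contra h1
    have := Φ.lev_lt (not_le.mp h1) hk
    omega
  · intro h
    exact Φ.lev_mono h hl

theorem Frame.lev_lt_lev_iff (Φ : Frame n) {k l : ℕ} (hk : k ≤ Φ.m) (hl : l ≤ Φ.m) :
    Φ.lev k < Φ.lev l ↔ k < l := by
  have := Φ.lev_le_lev_iff hl hk
  omega

/-- every level belongs to a digit -/
theorem Frame.exists_digit (Φ : Frame n) {ℓ : ℕ} (hℓ : ℓ < n) :
    ∃ k, k < Φ.m ∧ Φ.lev k ≤ ℓ ∧ ℓ < Φ.lev (k + 1) := by
  have h : ∃ k, k ≤ Φ.m ∧ ℓ < Φ.lev k := ⟨Φ.m, le_rfl, by rw [Φ.lev_m]; exact hℓ⟩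
  classical
  obtain ⟨h1, h2⟩ := Nat.find_spec h
  have h3 : Nat.find h ≠ 0 := by
    intro h0
    rw [h0, Φ.lev_zero] at h2
    omega
  refine ⟨Nat.find h - 1, by omega, ?_, ?_⟩
  · by_contra h4
    exact Nat.find_min h (m := Nat.find h - 1) (by omega) ⟨by omega, by omega⟩
  · rwa [show Nat.find h - 1 + 1 = Nat.find h by omega]

/-- every level belongs to a closed digit -/
theorem Frame.exists_cell (Φ : Frame n) {ℓ : ℕ} (hℓ : ℓ ≤ n) :
    ∃ k, k < Φ.m ∧ Φ.lev k ≤ ℓ ∧ ℓ ≤ Φ.lev (k + 1) := by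
  rcases hℓ.lt_or_eq with h | h
  · obtain ⟨k, h1, h2, h3⟩ := Φ.exists_digit h
    exact ⟨k, h1, h2, h3.le⟩
  · have := Φ.m_pos
    refine ⟨Φ.m - 1, by omega, ?_, ?_⟩
    · have := Φ.lev_le_n (k := Φ.m - 1) (by omega)
      omega
    · rw [show Φ.m - 1 + 1 = Φ.m by omega, Φ.lev_m]
      omega

theorem AgOut.refl {p q : ℕ} (x : Rw n) : AgOut p q x x := fun _ _ => rfl

theorem AgOut.symm {p q : ℕ} {x y : Rw n} (h : AgOut p q x y) : AgOut p q y x :=
  fun j hj => (h j hj).symm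

theorem AgOut.trans {p q : ℕ} {x y z : Rw n} (h : AgOut p q x y) (h' : AgOut p q y z) :
    AgOut p q x z :=
  fun j hj => (h j hj).trans (h' j hj)

theorem AgOut.mono {p q p' q' : ℕ} {x y : Rw n} (hp : p' ≤ p) (hq : q ≤ q') (h : AgOut p q x y) :
    AgOut p' q' x y := by
  intro j hj
  refine h j ?_
  omega

theorem agOut_wr {p q : ℕ} (x v : Rw n) : AgOut p q (wr p q x v) x := by
  intro j hj
  unfold wr
  rw [if_neg (by omega)]

theorem wr_in {p q : ℕ} (x v : Rw n) (j : Fin n) (h1 : p ≤ j.val) (h2 : j.val < q) :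
    wr p q x v j = v j := by
  unfold wr
  rw [if_pos ⟨h1, h2⟩]

theorem wr_out {p q : ℕ} (x v : Rw n) (j : Fin n) (h : j.val < p ∨ q ≤ j.val) :
    wr p q x v j = x j := agOut_wr x v j h

/-- rows that agree outside `[p,q)` and inside are equal -/
theorem AgOut.ext {p q : ℕ} {x y : Rw n} (h : AgOut p q x y)
    (h' : ∀ j : Fin n, p ≤ j.val → j.val < q → x j = y j) : x = y := by
  funext j
  by_cases hj : j.val < p ∨ q ≤ j.val
  · exact h j hj
  · exact h' j (by omega) (by omega)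

theorem bit_of_lt (x : Rw n) {j : ℕ} (h : j < n) : bit x j = x ⟨j, h⟩ := by
  unfold bit
  rw [dif_pos h]

theorem bit_of_ge (x : Rw n) {j : ℕ} (h : n ≤ j) : bit x j = false := by
  unfold bit
  rw [dif_neg (by omega)]

theorem bit_val (x : Rw n) (j : Fin n) : bit x j.val = x j := by
  rw [bit_of_lt x j.isLt]

/-- a row is determined by its bits -/
theorem row_ext {x y : Rw n} (h : ∀ j, j < n → bit x j = bit y j) : x = y := by
  funext j
  rw [← bit_val x j, ← bit_val y j]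
  exact h j j.isLt

theorem AgOut.bit {p q : ℕ} {x y : Rw n} (h : AgOut p q x y) {j : ℕ} (hj : j < p ∨ q ≤ j) :
    bit x j = bit y j := by
  by_cases h1 : j < n
  · rw [bit_of_lt x h1, bit_of_lt y h1]
    exact h ⟨j, h1⟩ hj
  · rw [bit_of_ge x (by omega), bit_of_ge y (by omega)]

theorem agOut_iff_bit {p q : ℕ} {x y : Rw n} :
    AgOut p q x y ↔ ∀ j, (j < p ∨ q ≤ j) → Pool.Agent.Bfly.bit x j = Pool.Agent.Bfly.bit y j := by
  constructor
  · intro h j hj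
    exact h.bit hj
  · intro h j hj
    rw [← bit_val x j, ← bit_val y j]
    exact h j hj

theorem bit_wr {p q : ℕ} (x v : Rw n) (j : ℕ) :
    bit (wr p q x v) j = if p ≤ j ∧ j < q then bit v j else bit x j := by
  by_cases h1 : j < n
  · rw [bit_of_lt _ h1, bit_of_lt _ h1, bit_of_lt _ h1]
    rfl
  · rw [bit_of_ge _ (by omega), bit_of_ge _ (by omega), bit_of_ge _ (by omega)]
    simp

@[simp] theorem nd_fst (x : Rw n) (ℓ : ℕ) : (nd x ℓ).1 = x := rfl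

theorem nd_snd (x : Rw n) {ℓ : ℕ} (h : ℓ ≤ n) : (nd x ℓ).2.val = ℓ := by
  unfold nd
  exact min_eq_left h

theorem Frame.nd_lev (Φ : Frame n) (x : Rw n) {k : ℕ} (hk : k ≤ Φ.m) :
    (nd x (Φ.lev k)).2.val = Φ.lev k := nd_snd x (Φ.lev_le_n hk)

/-- a node is given by its row and level -/
theorem nd_eq {a : Node n} {x : Rw n} {ℓ : ℕ} (h1 : a.1 = x) (h2 : a.2.val = ℓ) : nd x ℓ = a := by
  subst h1; subst h2
  unfold nd
  refine Prod.ext rfl (Fin.ext ?_)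
  have := a.2.isLt
  exact min_eq_left (by omega)

theorem node_ext {a b : Node n} (h1 : a.1 = b.1) (h2 : a.2.val = b.2.val) : a = b :=
  Prod.ext h1 (Fin.ext h2)

/-- role and signature bits are bits of the digit -/
theorem Frame.rb_mem (Φ : Frame n) {k : ℕ} (hk : k < Φ.m) :
    Φ.lev k ≤ Φ.rb k ∧ Φ.rb k < Φ.lev (k + 1) ∧ Φ.rb k < n := by
  have h1 := Φ.rb_lo k hk
  have h2 := Φ.rb_hi k hk
  have h3 := Φ.lev_le_n (k := k + 1) hk
  omega

theorem Frame.sb_mem (Φ : Frame n) {k : ℕ} (hk : k < Φ.m) :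
    Φ.lev k ≤ Φ.sb k ∧ Φ.sb k < Φ.lev (k + 1) ∧ Φ.sb k < n := by
  have h1 := Φ.sb_lo k hk
  have h2 := Φ.sb_hi k hk
  have h3 := Φ.lev_le_n (k := k + 1) hk
  omega

/-- role bits outside the digits `p, …, q - 1` are not changed -/
theorem Frame.rb_out (Φ : Frame n) {p q d : ℕ} (hd : d < Φ.m) (h : d < p ∨ q ≤ d) (hp : p ≤ Φ.m)
    (hq : q ≤ Φ.m) : Φ.rb d < Φ.lev p ∨ Φ.lev q ≤ Φ.rb d := by
  have h1 := Φ.rb_mem hd
  rcases h with h | h
  · have := Φ.lev_mono (k := d + 1) (l := p) h hp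
    omega
  · have := Φ.lev_mono (k := q) (l := d) h hd.le
    omega

theorem Frame.sb_out (Φ : Frame n) {p q d : ℕ} (hd : d < Φ.m) (h : d < p ∨ q ≤ d) (hp : p ≤ Φ.m)
    (hq : q ≤ Φ.m) : Φ.sb d < Φ.lev p ∨ Φ.lev q ≤ Φ.sb d := by
  have h1 := Φ.sb_mem hd
  rcases h with h | h
  · have := Φ.lev_mono (k := d + 1) (l := p) h hp
    omega
  · have := Φ.lev_mono (k := q) (l := d) h hd.le
    omega

namespace Sys

variable (S : Sys n)

theorem M_pos : 0 < S.M := by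
  have h := S.M_big
  unfold cbg at h
  omega

theorem h_pos (i : ℕ) : 0 < S.h i := by
  unfold Sys.h
  have := S.h0_big
  exact Nat.mul_pos (by omega) (Nat.pow_pos S.M_pos)

theorem four_le_h (i : ℕ) : 4 ≤ S.h i := by
  unfold Sys.h
  exact le_trans S.h0_big (Nat.le_mul_of_pos_right _ (Nat.pow_pos S.M_pos))

theorem h_succ (i : ℕ) : S.h (i + 1) = S.M * S.h i := by
  unfold Sys.h
  rw [pow_succ]
  ring

theorem h_mono {i j : ℕ} (hij : i ≤ j) : S.h i ≤ S.h j := by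
  unfold Sys.h
  exact Nat.mul_le_mul_left _ (Nat.pow_le_pow_right S.M_pos hij)

/-- a smaller scale is much smaller -/
theorem h_lt {i j : ℕ} (hij : i < j) : 16 * cbg S.g * S.h i ≤ S.h j := by
  refine le_trans ?_ (S.h_mono (Nat.succ_le_of_lt hij))
  rw [h_succ]
  exact Nat.mul_le_mul_right _ S.M_big

theorem h_dvd {i j : ℕ} (hij : i ≤ j) : S.h i ∣ S.h j := by
  unfold Sys.h
  exact Nat.mul_dvd_mul_left _ (Nat.pow_dvd_pow _ hij)

theorem two_h_dvd {i j : ℕ} (hij : i < j) : 2 * S.h i ∣ S.h j := by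
  refine dvd_trans ?_ (S.h_dvd (Nat.succ_le_of_lt hij))
  rw [h_succ]
  exact Nat.mul_dvd_mul_right S.M_even _

theorem h0_dvd_h (i : ℕ) : S.h0 ∣ S.h i := by
  unfold Sys.h
  exact Nat.dvd_mul_right _ _

theorem memN_nd {Q : Core n} (hQ : Q ∈ S.cores) {x : Rw n} {k : ℕ} (hk : k ≤ S.m) :
    S.memN Q (nd x (S.lev k)) ↔ S.mem Q x k := by
  unfold Sys.memN Sys.mem
  rw [S.nd_lev x hk, nd_fst]
  have h1 := S.core_lt Q hQ
  have h2 := S.core_le Q hQ
  rw [S.lev_le_lev_iff (by omega) hk, S.lev_le_lev_iff hk h2]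

end Sys

end Pool.Agent.Bfly
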