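import Pool.Agent.Lib.MP_d71b33_lc_h91.Sys

/-!
# The transport theorem (MP_d71b33_lc, task TR)
-/

namespace Pool.Agent.Bfly

open Set

theorem Chain.left_mem {W : Type*} {H : SimpleGraph W} {F P : Set W} {R r : ℕ} {x y : W}
    (h : Chain H F P R r x y) : x ∈ P := by
  induction h with
  | refl hx => exact hx
  | step h hyz hz ih => exact ih

theorem Chain.right_mem {W : Type*} {H : SimpleGraph W} {F P : Set W} {R r : ℕ} {x y : W}
    (h : Chain H F P R r x y) : y ∈ P := by
  cases h with
  | refl hx => exact hx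
  | step h hyz hz => exact hz

theorem Chain.single {W : Type*} {H : SimpleGraph W} {F P : Set W} {R : ℕ} {x y : W}
    (hx : x ∈ P) (hy : y ∈ P) (h : Near H F R x y) : Chain H F P R 1 x y :=
  Chain.step (Chain.refl hx) h hy

theorem Chain.trans {W : Type*} {H : SimpleGraph W} {F P : Set W} {R r s : ℕ} {x y z : W}
    (h : Chain H F P R r x y) (h' : Chain H F P R s y z) : Chain H F P R (r + s) x z := by
  induction h' with
  | refl hx => exact h
  | step h' hyz hz ih => exact Chain.step (ih h) hyz hz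

theorem Chain.symm {W : Type*} {H : SimpleGraph W} {F P : Set W} {R r : ℕ} {x y : W}
    (h : Chain H F P R r x y) : Chain H F P R r y x := by
  induction h with
  | refl hx => exact Chain.refl hx
  | step h hyz hz ih =>
    have := (Chain.single hz h.right_mem hyz.symm).trans ih
    rwa [Nat.add_comm] at this

theorem Chain.mono {W : Type*} {H : SimpleGraph W} {F P P' : Set W} {R r : ℕ} {x y : W}
    (hP : P ⊆ P') (h : Chain H F P R r x y) : Chain H F P' R r x y := by
  induction h with
  | refl hx => exact Chain.refl (hP hx)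
  | step h hyz hz ih => exact Chain.step ih hyz (hP hz)

theorem Chain.not_faulty {W : Type*} {H : SimpleGraph W} {F P : Set W} {R r : ℕ} {x y : W}
    (h : Chain H F P R r x y) (hx : x ∉ F) : y ∉ F := by
  cases h with
  | refl _ => exact hx
  | step _ hyz _ => exact hyz.right

/-- Compute copies `c` with potentials `mu`, allowed relay sets `P u`; the slowdown depends only on
`K0 D R S`. Relays: pairs `(u, x)`, `x ∈ P u`, reachable from a compute copy of `u`, with potential
`min (mu c' + r + 1)`. -/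
theorem emulates_of_transport {V W : Type*} [Nonempty V] (G : SimpleGraph V) (H : SimpleGraph W)
    (F : Set W) {C : Type*} (role : C → V) (host : C → W) (mu : C → ℕ) (P : V → Set W)
    (K0 D R S : ℕ) (hS : 1 ≤ S)
    (hF : ∀ c, host c ∉ F)
    (hK : ∀ x, {c | host c = x}.encard ≤ K0)
    (hP : ∀ x, {u | x ∈ P u}.encard ≤ K0)
    (hcP : ∀ c, host c ∈ P (role c))
    (hG : ∀ v, {u | G.Adj v u}.encard ≤ D)
    (hH : ∀ v, {u | H.Adj v u}.encard ≤ D)
    (hcomp : ∀ c, ∀ v, G.Adj v (role c) → ∃ c' r y, role c' = v ∧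
      Chain H F (P v) R r (host c') y ∧ Near H F R y (host c) ∧ mu c' + r + 2 ≤ S + mu c)
    (htop : ∀ v, ∃ c, role c = v ∧ mu c ≤ S) :
    Emulates G H F (2 * K0 + (2 * K0 + 2 * K0 * D + R * (((D + 1) ^ R * (2 * K0)) * D)) *
      (2 * S + 1)) := by
  classical
  have _ := hcP
  -- the relays
  let Rel : Type _ := {p : V × W // ∃ c' r, role c' = p.1 ∧ Chain H F (P p.1) R r (host c') p.2}
  let cost : V × W → ℕ := fun p =>
    sInf {k | ∃ c' r, role c' = p.1 ∧ Chain H F (P p.1) R r (host c') p.2 ∧ k = mu c' + r}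
  have hcost : ∀ (u : V) (a : W) c' r, role c' = u → Chain H F (P u) R r (host c') a →
      cost (u, a) ≤ mu c' + r := fun u a c' r h1 h2 => Nat.sInf_le ⟨c', r, h1, h2, rfl⟩
  have hcost' : ∀ p : Rel, ∃ c' r, role c' = p.1.1 ∧ Chain H F (P p.1.1) R r (host c') p.1.2 ∧
      cost p.1 = mu c' + r := by
    rintro ⟨p, c', r, h1, h2⟩
    exact Nat.sInf_mem (s := {k | ∃ c' r, role c' = p.1 ∧
      Chain H F (P p.1) R r (host c') p.2 ∧ k = mu c' + r}) ⟨_, c', r, h1, h2, rfl⟩
  refine emulates_of_copies' G H F (C := C ⊕ Rel) (Sum.elim role (fun p => p.1.1))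
    (Sum.elim host (fun p => p.1.2)) (Sum.elim mu (fun p => 1 + cost p.1)) (fun c => c.isLeft = true)
    (2 * K0) D R S hS ?_ ?_ hG hH ?_ ?_ ?_
  · rintro (c | p)
    · exact hF c
    · obtain ⟨c', r, h1, h2, h3⟩ := hcost' p
      exact h2.not_faulty (hF c')
  · intro x
    have h1 : {c : C ⊕ Rel | Sum.elim host (fun p => p.1.2) c = x} ⊆
        (Sum.inl '' {c | host c = x}) ∪ (Sum.inr '' {p : Rel | p.1.2 = x}) := by
      rintro (c | p) hc
      · exact Or.inl ⟨c, hc, rfl⟩
      · exact Or.inr ⟨p, hc, rfl⟩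
    have h2 : {p : Rel | p.1.2 = x}.encard ≤ K0 := by
      refine le_trans ?_ (hP x)
      refine encard_le_encard_of_injOn (f := fun p : Rel => p.1.1) ?_ ?_
      · intro p hp
        obtain ⟨c', r, h1, h2, h3⟩ := hcost' p
        have h4 := h2.right_mem
        rw [show p.1.2 = x from hp] at h4
        exact h4
      · intro p hp q hq hpq
        exact Subtype.ext (Prod.ext hpq ((show p.1.2 = x from hp).trans
          (show q.1.2 = x from hq).symm))
    calc {c : C ⊕ Rel | Sum.elim host (fun p => p.1.2) c = x}.encard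
        ≤ ((Sum.inl '' {c | host c = x}) ∪ (Sum.inr '' {p : Rel | p.1.2 = x})).encard :=
          encard_le_encard h1
      _ ≤ (Sum.inl '' {c | host c = x} : Set (C ⊕ Rel)).encard +
          (Sum.inr '' {p : Rel | p.1.2 = x} : Set (C ⊕ Rel)).encard := encard_union_le _ _
      _ ≤ K0 + K0 := add_le_add ((encard_image_le _ _).trans (hK x)) ((encard_image_le _ _).trans h2)
      _ = ((2 * K0 : ℕ) : ℕ∞) := by push_cast; rw [two_mul]
  · rintro (c | p) hc
    · exact absurd rfl hc
    · obtain ⟨c', r, h1, h2, h3⟩ := hcost' p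
      rcases p with ⟨⟨u, a⟩, hp⟩
      simp only at h1 h2 h3
      cases h2 with
      | refl hx =>
        refine ⟨Sum.inl c', h1, Near.refl (hF c') _, ?_⟩
        simp only [Sum.elim_inl, Sum.elim_inr]
        omega
      | @step r x y z h hyz hz =>
        refine ⟨Sum.inr ⟨(u, y), c', r, h1, h⟩, rfl, hyz, ?_⟩
        have h4 := hcost u y c' r h1 h
        simp only [Sum.elim_inr]
        omega
  · rintro (c | p) hc v hv
    · obtain ⟨c', r, y, h1, h2, h3, h4⟩ := hcomp c v hv
      refine ⟨Sum.inr ⟨(v, y), c', r, h1, h2⟩, rfl, h3, ?_⟩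
      have h5 := hcost v y c' r h1 h2
      simp only [Sum.elim_inl, Sum.elim_inr]
      omega
    · exact absurd hc (by simp)
  · intro v
    obtain ⟨c, h1, h2⟩ := htop v
    exact ⟨Sum.inl c, rfl, h1, h2⟩

end Pool.Agent.Bfly
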