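import Mathlib

/-!
# Emulation of one synchronous network by another one with faulty nodes (MP_d71b33_lc)

The butterfly network, random faults, and the item (pebble) model of emulations.
-/

namespace Pool.Agent.Bfly

/-- Nodes of the `n`-dimensional butterfly: a row `w ∈ {0,1}^n` and a level `i ∈ {0,…,n}`. -/
abbrev Node (n : ℕ) : Type := (Fin n → Bool) × Fin (n + 1)

/-- `a = (w,i)`, `b = (w',i+1)` where `w'` is `w` or `w ⊕ e_{i+1}`
(the `(i+1)`-st coordinate has index `i`). -/
def Up {n : ℕ} (a b : Node n) : Prop :=
  b.2.val = a.2.val + 1 ∧ ∀ j : Fin n, j.val ≠ a.2.val → b.1 j = a.1 j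

/-- The `n`-dimensional butterfly network. -/
def butterfly (n : ℕ) : SimpleGraph (Node n) where
  Adj a b := Up a b ∨ Up b a
  symm := ⟨fun _ _ h => Or.symm h⟩
  loopless := ⟨fun a h => by rcases h with h | h <;> exact absurd h.1 (by omega)⟩

/-- The data that occur in a computation of the guest network: `state v t` is the state of
processor `v` after `t` steps, `msg u v t` is the message that `u` sends to its neighbour `v` in
step `t + 1` (it depends on the state of `u` after `t` steps). -/
inductive Item (V : Type*) : Type _
  | state (v : V) (t : ℕ) : Item V
  | msg (u v : V) (t : ℕ) : Item V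

/-- The items that a processor whose memory contains the items of `M` can compute by one local
operation: a message from the state of its sender, or the next state of `v` from the present state
of `v` and the messages of all the neighbours of `v`. -/
def Computable {V : Type*} (G : SimpleGraph V) (M : Set (Item V)) : Item V → Prop
  | .state _ 0 => False
  | .state v (t + 1) => Item.state v t ∈ M ∧ ∀ u, G.Adj u v → Item.msg u v t ∈ M
  | .msg u v t => G.Adj u v ∧ Item.state u t ∈ M

/-- Only messages are sent (states never travel). -/
def IsMsg {V : Type*} : Item V → Prop
  | .state _ _ => False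
  | .msg _ _ _ => True

/-- The instructions of the processors of the host network: `start h` are the guest processors
whose initial states are given to `h`, `comp τ h` is the item computed by `h` in step `τ + 1`,
`send τ h h'` is the item sent by `h` to `h'` in step `τ + 1`. -/
structure Schedule (V W : Type*) where
  start : W → Finset V
  comp : ℕ → W → Item V
  send : ℕ → W → W → Item V

/-- The memory of the processor `h` of the host network `H` with set `F` of faulty nodes after `τ`
steps. In each step every working processor does one local operation and sends one item along each
edge to a working neighbour; faulty processors do nothing. -/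
def memory {V W : Type*} (G : SimpleGraph V) (H : SimpleGraph W) (F : Set W) (σ : Schedule V W) :
    ℕ → W → Set (Item V)
  | 0, h => {x | h ∉ F ∧ ∃ v ∈ σ.start h, x = Item.state v 0}
  | τ + 1, h => {x | h ∉ F ∧ (x ∈ memory G H F σ τ h ∨
      (x = σ.comp τ h ∧ Computable G (memory G H F σ τ h) x) ∨
      (IsMsg x ∧ ∃ h', h' ∉ F ∧ H.Adj h' h ∧ x = σ.send τ h' h ∧ x ∈ memory G H F σ τ h'))}

/-- `H` with faulty nodes `F` emulates `G` with slowdown `s`: at most `s` initial states are given to
each processor, and for every `T` the result of `T` steps of `G` (the states of all the processors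
after `T` steps) is available at working processors of `H` after `s * T` steps. -/
def Emulates {V W : Type*} (G : SimpleGraph V) (H : SimpleGraph W) (F : Set W) (s : ℕ) : Prop :=
  ∃ σ : Schedule V W, (∀ h, (σ.start h).card ≤ s) ∧
    ∀ T : ℕ, ∀ v : V, ∃ h : W, h ∉ F ∧ Item.state v T ∈ memory G H F σ (s * T) h

/-- The probability that the random set of faulty nodes (each node is faulty with probability `p`,
independently) has the property `A`. -/
noncomputable def prob (n : ℕ) (p : ℝ) (A : Set (Node n) → Prop) : ℝ :=
  open Classical in
  ∑ F : Finset (Node n), if A (F : Set (Node n)) then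
    p ^ F.card * (1 - p) ^ (Fintype.card (Node n) - F.card) else 0

end Pool.Agent.Bfly
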