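import Pool.Agent.Lib.MP_d71b33_lc_h91.CO

/-!
# Arithmetic of zones and T-structures (MP_d71b33_lc, task RA)
-/

namespace Pool.Agent.Bfly

open Set

variable {n : ℕ}

namespace Sys

variable (S : Sys n)

theorem grid_def {i k : ℕ} : S.grid i k ↔ (k + S.o) % (2 * S.h i) = S.h i := Iff.rfl

/-- moving a grid point by an even multiple of `h` -/
theorem grid_add {i k c : ℕ} (hk : S.grid i k) (hc : 2 ∣ c) : S.grid i (k + c * S.h i) := by
  obtain ⟨d, rfl⟩ := hc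
  unfold Sys.grid at *
  rw [show k + 2 * d * S.h i + S.o = (k + S.o) + (2 * S.h i) * d by ring, Nat.add_mul_mod_self_left]
  exact hk

theorem grid_sub {i k c : ℕ} (hk : S.grid i k) (hc : 2 ∣ c) (hle : c * S.h i ≤ k) :
    S.grid i (k - c * S.h i) := by
  obtain ⟨d, rfl⟩ := hc
  unfold Sys.grid at *
  have h1 : k + S.o = (k - 2 * d * S.h i + S.o) + (2 * S.h i) * d := by
    have : (2 * S.h i) * d = 2 * d * S.h i := by ring
    omega
  rw [h1, Nat.add_mul_mod_self_left] at hk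
  exact hk

theorem two_dvd_csm (g : ℕ) : 2 ∣ csm g := by
  unfold csm; omega

theorem two_dvd_tau (g : ℕ) : 2 ∣ tau g := by
  unfold tau
  exact Dvd.dvd.mul_right (Nat.dvd_mul_right 2 g) _

theorem two_dvd_cbg (g : ℕ) : 2 ∣ cbg g := by
  have h1 := two_dvd_csm g
  unfold cbg; omega

theorem core_s_grid {Q : Core n} (hQ : Q ∈ S.cores) (h : Q.s ≠ 0) : S.grid Q.i Q.s :=
  ((S.core_s Q hQ).resolve_left h).1

theorem core_e_grid {Q : Core n} (hQ : Q ∈ S.cores) (h : Q.e ≠ S.m) : S.grid Q.i Q.e :=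
  ((S.core_e Q hQ).resolve_left h).1

theorem core_s_le {Q : Core n} (hQ : Q ∈ S.cores) (h : Q.s ≠ 0) :
    (csm S.g + 4) * S.h Q.i ≤ Q.s :=
  ((S.core_s Q hQ).resolve_left h).2

theorem core_e_le {Q : Core n} (hQ : Q ∈ S.cores) (h : Q.e ≠ S.m) :
    Q.e + (csm S.g + 4) * S.h Q.i ≤ S.m :=
  ((S.core_e Q hQ).resolve_left h).2

theorem core_len_h {Q : Core n} (hQ : Q ∈ S.cores) : Q.e ≤ Q.s + (csm S.g + 8) * S.h Q.i :=
  S.core_len Q hQ

theorem core_len_h' {Q : Core n} (hQ : Q ∈ S.cores) (h1 : Q.s ≠ 0) (h2 : Q.e ≠ S.m) :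
    Q.e ≤ Q.s + 4 * S.h Q.i := S.core_len' Q hQ h1 h2

theorem ty_true_h {Q : Core n} (hQ : Q ∈ S.cores) (h : S.ty Q = true) :
    Q.e + (cbg S.g + 8) * S.h Q.i ≤ S.m := S.ty_true Q hQ h

theorem ty_false_h {Q : Core n} (hQ : Q ∈ S.cores) (h : S.ty Q = false) :
    (cbg S.g + 8) * S.h Q.i ≤ Q.s := S.ty_false Q hQ h

theorem ne_m_of_true {Q : Core n} (hQ : Q ∈ S.cores) (h : S.ty Q = true) : Q.e ≠ S.m := by
  have h1 := S.ty_true_h hQ h
  have h2 := S.h_pos Q.i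
  have h3 : 8 * S.h Q.i ≤ (cbg S.g + 8) * S.h Q.i := Nat.mul_le_mul_right _ (by omega)
  omega

theorem ne_zero_of_false {Q : Core n} (hQ : Q ∈ S.cores) (h : S.ty Q = false) : Q.s ≠ 0 := by
  have h1 := S.ty_false_h hQ h
  have h2 := S.h_pos Q.i
  have h3 : 8 * S.h Q.i ≤ (cbg S.g + 8) * S.h Q.i := Nat.mul_le_mul_right _ (by omega)
  omega

/-- the upper wall of the zone -/
theorem zs_add {Q : Core n} (hQ : Q ∈ S.cores) (h : Q.s ≠ 0) :
    S.zs Q + 4 * S.h Q.i = Q.s ∧ csm S.g * S.h Q.i ≤ S.zs Q := by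
  have h1 := S.core_s_le hQ h
  rw [Nat.add_mul] at h1
  unfold Sys.zs
  rw [if_neg h]
  omega

theorem zs_zero {Q : Core n} (h : Q.s = 0) : S.zs Q = 0 := by
  unfold Sys.zs
  rw [if_pos h]

/-- the lower wall of the zone -/
theorem ze_eq {Q : Core n} (hQ : Q ∈ S.cores) (h : Q.e ≠ S.m) :
    S.ze Q = Q.e + 4 * S.h Q.i ∧ S.ze Q + csm S.g * S.h Q.i ≤ S.m := by
  have h1 := S.core_e_le hQ h
  rw [Nat.add_mul] at h1
  unfold Sys.ze
  rw [if_neg h]
  omega

theorem ze_m {Q : Core n} (h : Q.e = S.m) : S.ze Q = S.m := by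
  unfold Sys.ze
  rw [if_pos h]

theorem it_true {Q : Core n} (h : S.ty Q = true) : S.it Q = S.zs Q := by
  unfold Sys.it
  rw [if_pos h]

theorem ib_true {Q : Core n} (h : S.ty Q = true) : S.ib Q = S.ze Q + tau S.g * S.h Q.i := by
  unfold Sys.ib
  rw [if_pos h]

theorem tw_true {Q : Core n} (h : S.ty Q = true) : S.tw Q = S.ze Q := by
  unfold Sys.tw
  rw [if_pos h]

theorem mkd_true {Q : Core n} (h : S.ty Q = true) : S.mkd Q = S.ib Q - 1 := by
  unfold Sys.mkd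
  rw [if_pos h]

theorem it_false {Q : Core n} (h : S.ty Q = false) : S.it Q = S.zs Q - tau S.g * S.h Q.i := by
  unfold Sys.it
  rw [if_neg (by simp [h])]

theorem ib_false {Q : Core n} (h : S.ty Q = false) : S.ib Q = S.ze Q := by
  unfold Sys.ib
  rw [if_neg (by simp [h])]

theorem tw_false {Q : Core n} (h : S.ty Q = false) : S.tw Q = S.zs Q - S.nb Q := by
  unfold Sys.tw
  rw [if_neg (by simp [h])]

theorem mkd_false {Q : Core n} (h : S.ty Q = false) : S.mkd Q = S.it Q := by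
  unfold Sys.mkd
  rw [if_neg (by simp [h])]

/-- the length of the zone -/
theorem zone_len {Q : Core n} (hQ : Q ∈ S.cores) :
    S.ze Q ≤ S.zs Q + (csm S.g + 12) * S.h Q.i ∧ S.zs Q ≤ S.ze Q ∧ S.ze Q ≤ S.m := by
  have h1 := S.core_len_h hQ
  have h2 := S.core_lt Q hQ
  have h3 := S.core_le Q hQ
  rw [Nat.add_mul] at h1
  rw [Nat.add_mul]
  by_cases hs : Q.s = 0
  · have h4 := S.zs_zero hs
    have h5 : Q.e ≠ S.m := by
      intro h5
      rcases Bool.eq_false_or_eq_true (S.ty Q) with h6 | h6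
      · exact S.ne_m_of_true hQ h6 h5
      · exact S.ne_zero_of_false hQ h6 hs
    have h6 := S.ze_eq hQ h5
    omega
  · have h4 := S.zs_add hQ hs
    by_cases he : Q.e = S.m
    · have h5 := S.ze_m he
      omega
    · have h5 := S.ze_eq hQ he
      have h6 := S.core_len_h' hQ hs he
      have h7 : 8 * S.h Q.i ≤ csm S.g * S.h Q.i := Nat.mul_le_mul_right _ (by unfold csm; omega)
      omega

/-- number of bits of the zone -/
theorem nb_le {Q : Core n} (hQ : Q ∈ S.cores) : S.nb Q ≤ tau S.g * S.h Q.i := by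
  obtain ⟨h1, h2, h3⟩ := S.zone_len hQ
  have h4 := S.lev_le_add h2 h3
  unfold Sys.nb
  have h5 : 2 * S.g * (S.ze Q - S.zs Q) ≤ 2 * S.g * ((csm S.g + 12) * S.h Q.i) :=
    Nat.mul_le_mul_left _ (by omega)
  have h6 : tau S.g * S.h Q.i = 2 * S.g * ((csm S.g + 12) * S.h Q.i) := by
    unfold tau; ring
  omega

/-- number of bits of the zone of a mid core (not extended) -/
theorem nb_le_mid {Q : Core n} (hQ : Q ∈ S.cores) (h1 : Q.s ≠ 0) (h2 : Q.e ≠ S.m) :
    S.nb Q ≤ 24 * S.g * S.h Q.i := by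
  obtain ⟨h3, h4, h5⟩ := S.zone_len hQ
  have h6 := S.core_len_h' hQ h1 h2
  have h7 := S.zs_add hQ h1
  have h8 := S.ze_eq hQ h2
  have h9 := S.lev_le_add h4 h5
  unfold Sys.nb
  have h10 : 2 * S.g * (S.ze Q - S.zs Q) ≤ 2 * S.g * (12 * S.h Q.i) :=
    Nat.mul_le_mul_left _ (by omega)
  have h11 : 24 * S.g * S.h Q.i = 2 * S.g * (12 * S.h Q.i) := by ring
  omega

theorem cbg_mul (i : ℕ) : cbg S.g * S.h i = 2 * (tau S.g * S.h i) + csm S.g * S.h i + 40 * S.h i := by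
  unfold cbg; ring

theorem csm_mul (i : ℕ) : csm S.g * S.h i = 24 * S.g * S.h i + 8 * S.h i := by
  unfold csm; ring

theorem csm_lt_tau (i : ℕ) : 10 * (csm S.g * S.h i) + 120 * S.h i ≤ tau S.g * S.h i := by
  have h := S.five_le_g
  have h1 : 10 * (csm S.g * S.h i) + 120 * S.h i = (2 * 5 * (csm S.g + 12)) * S.h i := by ring
  rw [h1]
  unfold tau
  exact Nat.mul_le_mul_right _ (Nat.mul_le_mul_right _ (Nat.mul_le_mul_left _ h))

/-- arithmetic of zones and T-structures -/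
theorem zone_arith {Q : Core n} (hQ : Q ∈ S.cores) :
    S.zs Q ≤ Q.s ∧ Q.e ≤ S.ze Q ∧ S.ze Q ≤ S.m ∧ S.it Q ≤ S.zs Q ∧ S.ze Q ≤ S.ib Q ∧
    S.ib Q ≤ S.m ∧ S.it Q ≤ S.tw Q ∧ S.tw Q + S.nb Q ≤ S.ib Q ∧
    (S.tw Q + S.nb Q ≤ S.zs Q ∨ S.ze Q ≤ S.tw Q) ∧
    S.ib Q ≤ S.it Q + (csm S.g + 12 + tau S.g) * S.h Q.i ∧ S.nb Q ≤ tau S.g * S.h Q.i ∧
    (csm S.g + 8) * S.h Q.i < S.ib Q - S.it Q := by
  obtain ⟨h1, h2, h3⟩ := S.zone_len hQ
  have h4 := S.nb_le hQ
  have hlt := S.core_lt Q hQ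
  have hle := S.core_le Q hQ
  have hh := S.h_pos Q.i
  have h5 : S.zs Q ≤ Q.s := by
    by_cases hs : Q.s = 0
    · rw [S.zs_zero hs]; omega
    · have := S.zs_add hQ hs; omega
  have h6 : Q.e ≤ S.ze Q := by
    by_cases he : Q.e = S.m
    · rw [S.ze_m he]; omega
    · have := S.ze_eq hQ he; omega
  have h7 := S.csm_lt_tau Q.i
  have h8 := S.cbg_mul Q.i
  rw [Nat.add_mul] at h1
  rw [Nat.add_mul, Nat.add_mul, Nat.add_mul]
  rcases Bool.eq_false_or_eq_true (S.ty Q) with ht | ht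
  · have h9 := S.ty_true_h hQ ht
    rw [Nat.add_mul] at h9
    have h10 := S.ze_eq hQ (S.ne_m_of_true hQ ht)
    rw [S.it_true ht, S.ib_true ht, S.tw_true ht]
    omega
  · have h9 := S.ty_false_h hQ ht
    rw [Nat.add_mul] at h9
    have h10 := S.zs_add hQ (S.ne_zero_of_false hQ ht)
    rw [S.it_false ht, S.ib_false ht, S.tw_false ht]
    omega

theorem grid_ib {Q : Core n} (hQ : Q ∈ S.cores) (h : S.ib Q ≠ S.m) : S.grid Q.i (S.ib Q) := by
  rcases Bool.eq_false_or_eq_true (S.ty Q) with ht | ht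
  · have h1 := S.ne_m_of_true hQ ht
    rw [S.ib_true ht, (S.ze_eq hQ h1).1, Nat.add_assoc, ← Nat.add_mul]
    refine S.grid_add (S.core_e_grid hQ h1) ?_
    have := two_dvd_tau S.g
    omega
  · rw [S.ib_false ht] at h ⊢
    have h1 : Q.e ≠ S.m := fun h1 => h (S.ze_m h1)
    rw [(S.ze_eq hQ h1).1]
    exact S.grid_add (S.core_e_grid hQ h1) (by omega)

theorem grid_it {Q : Core n} (hQ : Q ∈ S.cores) (h : S.it Q ≠ 0) : S.grid Q.i (S.it Q) := by
  rcases Bool.eq_false_or_eq_true (S.ty Q) with ht | ht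
  · rw [S.it_true ht] at h ⊢
    have h1 : Q.s ≠ 0 := fun h1 => h (S.zs_zero h1)
    have h2 := S.zs_add hQ h1
    have h3 : S.zs Q = Q.s - 4 * S.h Q.i := by omega
    rw [h3]
    exact S.grid_sub (S.core_s_grid hQ h1) (by omega) (by omega)
  · have h1 := S.ne_zero_of_false hQ ht
    have h2 := S.zs_add hQ h1
    have h3 := S.ty_false_h hQ ht
    have h4 := S.cbg_mul Q.i
    rw [Nat.add_mul] at h3
    have h5 : S.it Q = Q.s - (4 + tau S.g) * S.h Q.i := by
      rw [S.it_false ht, Nat.add_mul]; omega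
    rw [h5]
    refine S.grid_sub (S.core_s_grid hQ h1) ?_ ?_
    · have := two_dvd_tau S.g
      omega
    · rw [Nat.add_mul]; omega

/-- the walls of a zone are on the grid -/
theorem grid_ze {Q : Core n} (hQ : Q ∈ S.cores) (h : Q.e ≠ S.m) : S.grid Q.i (S.ze Q) := by
  rw [(S.ze_eq hQ h).1]
  exact S.grid_add (S.core_e_grid hQ h) (by omega)

theorem grid_zs {Q : Core n} (hQ : Q ∈ S.cores) (h : Q.s ≠ 0) : S.grid Q.i (S.zs Q) := by
  have h2 := S.zs_add hQ h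
  have h3 : S.zs Q = Q.s - 4 * S.h Q.i := by omega
  rw [h3]
  exact S.grid_sub (S.core_s_grid hQ h) (by omega) (by omega)

/-- grid points are special levels of all scales not larger -/
theorem dvd_of_grid {i j k : ℕ} (hij : i ≤ j) (h : S.grid j k) : S.h i ∣ k + S.o := by
  have h1 : S.h j ∣ k + S.o := by
    unfold Sys.grid at h
    have h2 := Nat.div_add_mod (k + S.o) (2 * S.h j)
    rw [h] at h2
    refine ⟨2 * ((k + S.o) / (2 * S.h j)) + 1, ?_⟩
    refine h2.symm.trans ?_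
    ring
  exact dvd_trans (S.h_dvd hij) h1

/-- `ib` is never `m` if the T-window is below -/
theorem ib_lt_m {Q : Core n} (hQ : Q ∈ S.cores) (h : S.ty Q = true) : S.ib Q < S.m := by
  have h9 := S.ty_true_h hQ h
  rw [Nat.add_mul] at h9
  have h10 := S.ze_eq hQ (S.ne_m_of_true hQ h)
  have h8 := S.cbg_mul Q.i
  have hh := S.h_pos Q.i
  rw [S.ib_true h]
  omega

/-- `it` is never `0` if the T-window is above -/
theorem it_pos {Q : Core n} (hQ : Q ∈ S.cores) (h : S.ty Q = false) : 0 < S.it Q := by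
  have h3 := S.ty_false_h hQ h
  rw [Nat.add_mul] at h3
  have h2 := S.zs_add hQ (S.ne_zero_of_false hQ h)
  have h8 := S.cbg_mul Q.i
  have hh := S.h_pos Q.i
  rw [S.it_false h]
  omega

/-- the marker digit is a digit of the T-structure -/
theorem mkd_mem {Q : Core n} (hQ : Q ∈ S.cores) : S.it Q ≤ S.mkd Q ∧ S.mkd Q < S.ib Q := by
  have h := S.zone_arith hQ
  have hlt := S.core_lt Q hQ
  rcases Bool.eq_false_or_eq_true (S.ty Q) with ht | ht
  · rw [S.mkd_true ht]; omega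
  · rw [S.mkd_false ht]; omega

end Sys

end Pool.Agent.Bfly
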