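import Pool.Agent.Lib.MP_d71b33_lc_h91.RA

/-!
# Reflection of the butterfly (MP_d71b33_lc, task RF)
-/

namespace Pool.Agent.Bfly

open Set

variable {n : ℕ}

theorem rv_rv (x : Rw n) : rv (rv x) = x := by
  funext j
  unfold rv
  rw [Fin.rev_rev]

theorem rf_rf (v : Node n) : rf (rf v) = v := by
  unfold rf
  rw [rv_rv, Fin.rev_rev]

theorem rf_snd (v : Node n) : (rf v).2.val = n - v.2.val := by
  have := v.2.isLt
  unfold rf
  simp only [Fin.val_rev]
  omega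

theorem rf_fst (v : Node n) : (rf v).1 = rv v.1 := rfl

theorem rv_inj {x y : Rw n} (h : rv x = rv y) : x = y := by
  rw [← rv_rv x, ← rv_rv y, h]

theorem bit_rv (x : Rw n) {j : ℕ} (hj : j < n) : bit (rv x) j = bit x (n - 1 - j) := by
  rw [bit_of_lt _ hj, bit_of_lt _ (show n - 1 - j < n by omega)]
  unfold rv
  congr 1
  apply Fin.ext
  simp only [Fin.val_rev]
  omega

theorem AgOut.rv_aux {p q : ℕ} {x y : Rw n} (hp : p ≤ n) (hq : q ≤ n) (h : AgOut p q x y) :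
    AgOut (n - q) (n - p) (rv x) (rv y) := by
  intro j hj
  unfold rv
  apply h
  have := j.isLt
  simp only [Fin.val_rev]
  omega

theorem agOut_rv {p q : ℕ} {x y : Rw n} (hp : p ≤ n) (hq : q ≤ n) :
    AgOut (n - q) (n - p) (rv x) (rv y) ↔ AgOut p q x y := by
  constructor
  · intro h
    have h1 := AgOut.rv_aux (Nat.sub_le n q) (Nat.sub_le n p) h
    rw [rv_rv, rv_rv] at h1
    rwa [show n - (n - p) = p by omega, show n - (n - q) = q by omega] at h1
  · intro h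
    exact h.rv_aux hp hq

theorem up_rf {a b : Node n} (h : Up a b) : Up (rf b) (rf a) := by
  obtain ⟨h1, h2⟩ := h
  have ha := a.2.isLt
  have hb := b.2.isLt
  refine ⟨?_, ?_⟩
  · rw [rf_snd, rf_snd]
    omega
  · intro j hj
    rw [rf_snd] at hj
    rw [rf_fst, rf_fst]
    unfold rv
    refine (h2 _ ?_).symm
    have := j.isLt
    simp only [Fin.val_rev]
    omega

theorem butterfly_rf (a b : Node n) : (butterfly n).Adj (rf a) (rf b) ↔ (butterfly n).Adj a b := by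
  constructor
  · rintro (h | h)
    · have := up_rf h
      rw [rf_rf, rf_rf] at this
      exact Or.inr this
    · have := up_rf h
      rw [rf_rf, rf_rf] at this
      exact Or.inl this
  · rintro (h | h)
    · exact Or.inr (up_rf h)
    · exact Or.inl (up_rf h)

theorem Core.refl_refl {m : ℕ} {Q : Core n} (h1 : Q.s ≤ m) (h2 : Q.e ≤ m) :
    Core.refl m (Core.refl m Q) = Q := by
  refine Core.ext rfl ?_ ?_ (rv_rv _)
  · show m - (m - Q.s) = Q.s
    omega
  · show m - (m - Q.e) = Q.e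
    omega

theorem mod_refl {a b h t : ℕ} (hh : 0 < h) (hab : a + b = (2 * h) * t) (hb : b % (2 * h) = h) :
    a % (2 * h) = h := by
  have h1 : (a + b) % (2 * h) = 0 := by rw [hab]; exact Nat.mul_mod_right _ _
  rw [Nat.add_mod, hb] at h1
  have h2 : a % (2 * h) < 2 * h := Nat.mod_lt _ (by omega)
  obtain ⟨k, hk⟩ := Nat.dvd_of_mod_eq_zero h1
  have h3 : k = 1 := by
    rcases Nat.lt_trichotomy k 1 with h4 | h4 | h4
    · have : k = 0 := by omega
      subst this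
      omega
    · exact h4
    · have : 2 * h * 2 ≤ 2 * h * k := Nat.mul_le_mul_left _ h4
      omega
  subst h3
  omega

theorem dvd_refl_iff {a b h t : ℕ} (hab : a + b = h * t) : h ∣ a ↔ h ∣ b := by
  have h1 : h ∣ a + b := ⟨t, hab⟩
  exact ⟨fun ha => (Nat.dvd_add_right ha).mp h1, fun hb => (Nat.dvd_add_left hb).mp h1⟩

/-- offset of the reflected grid -/
theorem Sys.o_refl (S : Sys n) {i k : ℕ} (hi : i ≤ S.top) (hk : k ≤ S.m) :
    ∃ t, (S.m - k + ((S.m + S.o) * (2 * (S.h0 * S.M ^ S.top)) - (S.m + S.o))) + (k + S.o) =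
      (2 * (S.h0 * S.M ^ i)) * t := by
  obtain ⟨t, ht⟩ := S.h_dvd hi
  unfold Sys.h at ht
  refine ⟨(S.m + S.o) * t, ?_⟩
  have h1 : 1 ≤ 2 * (S.h0 * S.M ^ S.top) := by
    have := S.h_pos S.top
    unfold Sys.h at this
    omega
  have h2 : (S.m + S.o) * 1 ≤ (S.m + S.o) * (2 * (S.h0 * S.M ^ S.top)) := Nat.mul_le_mul_left _ h1
  have h3 : 2 * (S.h0 * S.M ^ i) * ((S.m + S.o) * t) =
      (S.m + S.o) * (2 * (S.h0 * S.M ^ S.top)) := by
    rw [ht]; ring
  rw [h3]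
  omega

theorem Sys.core_s_le_m (S : Sys n) {Q : Core n} (hQ : Q ∈ S.cores) : Q.s ≤ S.m := by
  have h1 := S.core_lt Q hQ
  have h2 := S.core_le Q hQ
  omega

/-- the reflected system -/
noncomputable def Sys.refl (S : Sys n) : Sys n where
  g := S.g
  m := S.m
  lev k := n - S.lev (S.m - k)
  rb k := n - 1 - S.rb (S.m - 1 - k)
  sb k := n - 1 - S.sb (S.m - 1 - k)
  five_le_g := S.five_le_g
  m_pos := S.m_pos
  lev_zero := by rw [Nat.sub_zero, S.lev_m, Nat.sub_self]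
  lev_m := by rw [Nat.sub_self, S.lev_zero, Nat.sub_zero]
  lev_lo := by
    intro k hk
    have h1 := S.lev_lo (S.m - (k + 1)) (by omega)
    rw [show S.m - (k + 1) + 1 = S.m - k by omega] at h1
    have h2 := S.lev_le_n (k := S.m - k) (by omega)
    omega
  lev_hi := by
    intro k hk
    have h1 := S.lev_hi (S.m - (k + 1)) (by omega)
    rw [show S.m - (k + 1) + 1 = S.m - k by omega] at h1
    have h2 := S.lev_le_n (k := S.m - k) (by omega)
    omega
  rb_lo := by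
    intro k hk
    have h1 := S.rb_hi (S.m - 1 - k) (by omega)
    rw [show S.m - 1 - k + 1 = S.m - k by omega] at h1
    have h2 := S.lev_le_n (k := S.m - k) (by omega)
    omega
  rb_hi := by
    intro k hk
    have h1 := S.rb_lo (S.m - 1 - k) (by omega)
    have h3 := S.rb_mem (k := S.m - 1 - k) (by omega)
    rw [show S.m - 1 - k + 1 = S.m - k by omega] at h3
    rw [show S.m - (k + 1) = S.m - 1 - k by omega]
    have h2 := S.lev_le_n (k := S.m - k) (by omega)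
    omega
  sb_lo := by
    intro k hk
    have h1 := S.sb_hi (S.m - 1 - k) (by omega)
    rw [show S.m - 1 - k + 1 = S.m - k by omega] at h1
    have h2 := S.lev_le_n (k := S.m - k) (by omega)
    omega
  sb_hi := by
    intro k hk
    have h1 := S.sb_lo (S.m - 1 - k) (by omega)
    have h3 := S.sb_mem (k := S.m - 1 - k) (by omega)
    rw [show S.m - 1 - k + 1 = S.m - k by omega] at h3
    rw [show S.m - (k + 1) = S.m - 1 - k by omega]
    have h2 := S.lev_le_n (k := S.m - k) (by omega)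
    omega
  rb_ne_sb := by
    intro k hk
    have h1 := S.rb_ne_sb (S.m - 1 - k) (by omega)
    have h2 := S.rb_mem (k := S.m - 1 - k) (by omega)
    have h3 := S.sb_mem (k := S.m - 1 - k) (by omega)
    omega
  K := S.K
  M := S.M
  h0 := S.h0
  top := S.top
  o := (S.m + S.o) * (2 * (S.h0 * S.M ^ S.top)) - (S.m + S.o)
  F := {v | rf v ∈ S.F}
  cores := Core.refl S.m '' S.cores
  ty Q := ! S.ty (Core.refl S.m Q)
  h0_big := S.h0_big
  M_even := S.M_even
  M_big := S.M_big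
  K_small := S.K_small
  core_top := by
    rintro _ ⟨Q, hQ, rfl⟩
    exact S.core_top Q hQ
  core_lt := by
    rintro _ ⟨Q, hQ, rfl⟩
    have h1 := S.core_lt Q hQ
    have h2 := S.core_le Q hQ
    show S.m - Q.e < S.m - Q.s
    omega
  core_le := by
    rintro _ ⟨Q, hQ, rfl⟩
    show S.m - Q.s ≤ S.m
    omega
  core_s := by
    rintro _ ⟨Q, hQ, rfl⟩
    show S.m - Q.e = 0 ∨ ((S.m - Q.e + _) % (2 * (S.h0 * S.M ^ Q.i)) = S.h0 * S.M ^ Q.i ∧
      (csm S.g + 4) * (S.h0 * S.M ^ Q.i) ≤ S.m - Q.e)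
    have h2 := S.core_le Q hQ
    rcases S.core_e Q hQ with h | ⟨h3, h4⟩
    · left; omega
    · right
      obtain ⟨t, ht⟩ := S.o_refl (S.core_top Q hQ) h2
      exact ⟨mod_refl (S.h_pos Q.i) ht h3, by omega⟩
  core_e := by
    rintro _ ⟨Q, hQ, rfl⟩
    show S.m - Q.s = S.m ∨ ((S.m - Q.s + _) % (2 * (S.h0 * S.M ^ Q.i)) = S.h0 * S.M ^ Q.i ∧
      S.m - Q.s + (csm S.g + 4) * (S.h0 * S.M ^ Q.i) ≤ S.m)
    have h2 := S.core_s_le_m hQ
    rcases S.core_s Q hQ with h | ⟨h3, h4⟩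
    · left; omega
    · right
      obtain ⟨t, ht⟩ := S.o_refl (S.core_top Q hQ) h2
      exact ⟨mod_refl (S.h_pos Q.i) ht h3, by omega⟩
  core_len := by
    rintro _ ⟨Q, hQ, rfl⟩
    have h1 := S.core_len Q hQ
    have h2 := S.core_le Q hQ
    show S.m - Q.s ≤ S.m - Q.e + (csm S.g + 8) * (S.h0 * S.M ^ Q.i)
    omega
  core_len' := by
    rintro _ ⟨Q, hQ, rfl⟩
    intro h3 h4
    have h3' : S.m - Q.e ≠ 0 := h3
    have h4' : S.m - Q.s ≠ S.m := h4
    have h2 := S.core_le Q hQ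
    have h1 := S.core_len' Q hQ (by omega) (by omega)
    show S.m - Q.s ≤ S.m - Q.e + 4 * (S.h0 * S.M ^ Q.i)
    omega
  ty_true := by
    rintro _ ⟨Q, hQ, rfl⟩ h
    rw [Core.refl_refl (S.core_s_le_m hQ) (S.core_le Q hQ)] at h
    have h1 := S.ty_false Q hQ (by simpa using h)
    have h2 := S.core_s_le_m hQ
    show S.m - Q.s + (cbg S.g + 8) * (S.h0 * S.M ^ Q.i) ≤ S.m
    omega
  ty_false := by
    rintro _ ⟨Q, hQ, rfl⟩ h
    rw [Core.refl_refl (S.core_s_le_m hQ) (S.core_le Q hQ)] at h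
    have h1 := S.ty_true Q hQ (by simpa using h)
    have h2 := S.core_le Q hQ
    show (cbg S.g + 8) * (S.h0 * S.M ^ Q.i) ≤ S.m - Q.e
    omega
  sparse := by
    intro i p q x hq hpq
    refine le_trans ?_ (S.sparse i (S.m - q) (S.m - p) (rv x) (Nat.sub_le _ _) (by omega))
    refine le_trans (encard_le_encard (t := Core.refl S.m '' {Q | Q ∈ S.cores ∧ Q.i = i ∧
      S.m - q ≤ Q.s ∧ Q.e ≤ S.m - p ∧ AgOut (S.lev (S.m - q)) (S.lev (S.m - p)) (rv x) Q.b}) ?_)
      (encard_image_le _ _)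
    rintro _ ⟨⟨Q, hQ, rfl⟩, h1, h2, h3, h4⟩
    have h5 := S.core_le Q hQ
    have h6 := S.core_lt Q hQ
    have h2' : p ≤ S.m - Q.e := h2
    have h3' : S.m - Q.s ≤ q := h3
    refine ⟨Q, ⟨hQ, h1, by omega, by omega, ?_⟩, rfl⟩
    have h7 : AgOut (n - S.lev (S.m - p)) (n - S.lev (S.m - q)) (rv (rv x)) (rv Q.b) := by
      rw [rv_rv]; exact h4
    rwa [agOut_rv (S.lev_le_n (Nat.sub_le _ _)) (S.lev_le_n (Nat.sub_le _ _))] at h7
  cover := by
    intro v hv k hk h1 h2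
    have hvn := v.2.isLt
    have h3 := S.lev_le_n (k := S.m - k) (by omega)
    have h4 := S.lev_le_n (k := S.m - (k + 1)) (by omega)
    obtain ⟨Q, hQ, h5, h6, h7⟩ := S.cover (rf v) hv (S.m - 1 - k) (by omega)
      (by rw [rf_snd, show S.m - 1 - k = S.m - (k + 1) by omega]; omega)
      (by rw [rf_snd, show S.m - 1 - k + 1 = S.m - k by omega]; omega)
    have h8 := S.core_le Q hQ
    have h9 := S.core_lt Q hQ
    refine ⟨Core.refl S.m Q, ⟨Q, hQ, rfl⟩, ?_, ?_, ?_⟩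
    · show S.m - Q.e ≤ k
      omega
    · show k + 1 ≤ S.m - Q.s
      omega
    · show AgOut (n - S.lev (S.m - (S.m - Q.e))) (n - S.lev (S.m - (S.m - Q.s))) v.1 (rv Q.b)
      rw [show S.m - (S.m - Q.e) = Q.e by omega, show S.m - (S.m - Q.s) = Q.s by omega,
        ← rv_rv v.1, agOut_rv (S.lev_le_n (by omega)) (S.lev_le_n h8)]
      exact h7

theorem Near.rf_aux {F F' : Set (Node n)} (hF : ∀ v, rf v ∈ F' → v ∈ F) {r : ℕ} {a b : Node n}
    (h : Near (butterfly n) F r a b) : Near (butterfly n) F' r (rf a) (rf b) := by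
  induction h with
  | refl hx r => exact Near.refl (fun h => hx (hF _ h)) r
  | step h hz hyz ih => exact Near.step ih (fun h => hz (hF _ h)) ((butterfly_rf _ _).2 hyz)

theorem near_rf (S : Sys n) (r : ℕ) (a b : Node n) :
    Near (butterfly n) S.refl.F r (rf a) (rf b) ↔ Near (butterfly n) S.F r a b := by
  constructor
  · intro h
    have h1 := h.rf_aux (F' := S.F) (fun v hv => hv)
    rwa [rf_rf, rf_rf] at h1
  · intro h
    refine h.rf_aux (fun v hv => ?_)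
    have h1 : rf (rf v) ∈ S.F := hv
    rwa [rf_rf] at h1

theorem Sys.memN_rf (S : Sys n) (Q : Core n) (hQ : Q ∈ S.cores) (v : Node n) :
    S.refl.memN (Core.refl S.m Q) (rf v) ↔ S.memN Q v := by
  unfold Sys.memN
  have h8 := S.core_le Q hQ
  have h9 := S.core_lt Q hQ
  have hvn := v.2.isLt
  have h1 := S.lev_le_n h8
  have h2 := S.lev_le_n (k := Q.s) (by omega)
  show n - S.lev (S.m - (S.m - Q.e)) ≤ (rf v).2.val ∧ (rf v).2.val ≤ n - S.lev (S.m - (S.m - Q.s)) ∧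
    AgOut (n - S.lev (S.m - (S.m - Q.e))) (n - S.lev (S.m - (S.m - Q.s))) (rv v.1) (rv Q.b) ↔ _
  rw [show S.m - (S.m - Q.e) = Q.e by omega, show S.m - (S.m - Q.s) = Q.s by omega,
    agOut_rv h2 h1, rf_snd]
  constructor
  · rintro ⟨h3, h4, h5⟩
    exact ⟨by omega, by omega, h5⟩
  · rintro ⟨h3, h4, h5⟩
    exact ⟨by omega, by omega, h5⟩

theorem Sys.mem_rf (S : Sys n) (Q : Core n) (hQ : Q ∈ S.cores) (x : Rw n) (k : ℕ) (hk : k ≤ S.m) :
    S.refl.mem (Core.refl S.m Q) (rv x) (S.m - k) ↔ S.mem Q x k := by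
  unfold Sys.mem
  have h8 := S.core_le Q hQ
  have h9 := S.core_lt Q hQ
  have h1 := S.lev_le_n h8
  have h2 := S.lev_le_n (k := Q.s) (by omega)
  show S.m - Q.e ≤ S.m - k ∧ S.m - k ≤ S.m - Q.s ∧
    AgOut (n - S.lev (S.m - (S.m - Q.e))) (n - S.lev (S.m - (S.m - Q.s))) (rv x) (rv Q.b) ↔ _
  rw [show S.m - (S.m - Q.e) = Q.e by omega, show S.m - (S.m - Q.s) = Q.s by omega,
    agOut_rv h2 h1]
  constructor
  · rintro ⟨h3, h4, h5⟩
    exact ⟨by omega, by omega, h5⟩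
  · rintro ⟨h3, h4, h5⟩
    exact ⟨by omega, by omega, h5⟩

theorem Sys.freeN_rf (S : Sys n) (v : Node n) : S.refl.freeN (rf v) ↔ S.freeN v := by
  constructor
  · intro h Q hQ h1
    exact h (Core.refl S.m Q) ⟨Q, hQ, rfl⟩ ((S.memN_rf Q hQ v).2 h1)
  · rintro h _ ⟨Q, hQ, rfl⟩ h1
    exact h Q hQ ((S.memN_rf Q hQ v).1 h1)

theorem Sys.free_rf (S : Sys n) (x : Rw n) (k : ℕ) (hk : k ≤ S.m) :
    S.refl.free (rv x) (S.m - k) ↔ S.free x k := by
  constructor
  · intro h Q hQ h1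
    exact h (Core.refl S.m Q) ⟨Q, hQ, rfl⟩ ((S.mem_rf Q hQ x k hk).2 h1)
  · rintro h _ ⟨Q, hQ, rfl⟩ h1
    exact h Q hQ ((S.mem_rf Q hQ x k hk).1 h1)

theorem Sys.zs_rf (S : Sys n) (Q : Core n) (hQ : Q ∈ S.cores) :
    S.refl.zs (Core.refl S.m Q) = S.m - S.ze Q := by
  have h8 := S.core_le Q hQ
  show (if S.m - Q.e = 0 then 0 else S.m - Q.e - 4 * S.h Q.i) = _
  by_cases h : Q.e = S.m
  · rw [if_pos (by omega), S.ze_m h]; omega
  · rw [if_neg (by omega), (S.ze_eq hQ h).1]; omega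

theorem Sys.ze_rf (S : Sys n) (Q : Core n) (hQ : Q ∈ S.cores) :
    S.refl.ze (Core.refl S.m Q) = S.m - S.zs Q := by
  have h8 := S.core_s_le_m hQ
  show (if S.m - Q.s = S.m then S.m else S.m - Q.s + 4 * S.h Q.i) = _
  by_cases h : Q.s = 0
  · rw [if_pos (by omega), S.zs_zero h]; omega
  · have h1 := S.zs_add hQ h
    rw [if_neg (by omega)]; omega

theorem Sys.ty_rf (S : Sys n) (Q : Core n) (hQ : Q ∈ S.cores) :
    S.refl.ty (Core.refl S.m Q) = ! S.ty Q := by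
  show (! S.ty (Core.refl S.m (Core.refl S.m Q))) = _
  rw [Core.refl_refl (S.core_s_le_m hQ) (S.core_le Q hQ)]

theorem Sys.lev_rf (S : Sys n) {k : ℕ} (hk : k ≤ S.m) : S.refl.lev (S.m - k) = n - S.lev k := by
  show n - S.lev (S.m - (S.m - k)) = _
  rw [show S.m - (S.m - k) = k by omega]

theorem Sys.inZ_rf (S : Sys n) (Q : Core n) (hQ : Q ∈ S.cores) (w : Rw n) :
    S.refl.inZ (Core.refl S.m Q) (rv w) ↔ S.inZ Q w := by
  have h := S.zone_arith hQ
  have hlt := S.core_lt Q hQ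
  unfold Sys.inZ
  rw [S.zs_rf Q hQ, S.ze_rf Q hQ, S.lev_rf (by omega), S.lev_rf (by omega)]
  exact agOut_rv (S.lev_le_n (by omega)) (S.lev_le_n (by omega))

theorem Sys.nb_rf (S : Sys n) (Q : Core n) (hQ : Q ∈ S.cores) :
    S.refl.nb (Core.refl S.m Q) = S.nb Q := by
  have h := S.zone_arith hQ
  have hlt := S.core_lt Q hQ
  have h1 := S.lev_le_n (k := S.ze Q) (by omega)
  unfold Sys.nb
  rw [S.zs_rf Q hQ, S.ze_rf Q hQ, S.lev_rf (by omega), S.lev_rf (by omega)]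
  omega

theorem Sys.it_rf (S : Sys n) (Q : Core n) (hQ : Q ∈ S.cores) :
    S.refl.it (Core.refl S.m Q) = S.m - S.ib Q := by
  have h := S.zone_arith hQ
  have h1 := S.ty_rf Q hQ
  rcases Bool.eq_false_or_eq_true (S.ty Q) with ht | ht
  · rw [ht, Bool.not_true] at h1
    rw [S.refl.it_false h1, S.ib_true ht, S.zs_rf Q hQ]
    show S.m - S.ze Q - tau S.g * S.h Q.i = _
    omega
  · rw [ht, Bool.not_false] at h1
    rw [S.refl.it_true h1, S.ib_false ht, S.zs_rf Q hQ]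

theorem Sys.ib_rf (S : Sys n) (Q : Core n) (hQ : Q ∈ S.cores) :
    S.refl.ib (Core.refl S.m Q) = S.m - S.it Q := by
  have h := S.zone_arith hQ
  have hlt := S.core_lt Q hQ
  have h1 := S.ty_rf Q hQ
  rcases Bool.eq_false_or_eq_true (S.ty Q) with ht | ht
  · rw [ht, Bool.not_true] at h1
    rw [S.refl.ib_false h1, S.it_true ht, S.ze_rf Q hQ]
  · rw [ht, Bool.not_false] at h1
    have h2 := S.it_pos hQ ht
    rw [S.it_false ht] at h2
    rw [S.refl.ib_true h1, S.it_false ht, S.ze_rf Q hQ]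
    show S.m - S.zs Q + tau S.g * S.h Q.i = _
    omega

theorem Sys.tw_rf (S : Sys n) (Q : Core n) (hQ : Q ∈ S.cores) :
    S.refl.tw (Core.refl S.m Q) = S.m - (S.tw Q + S.nb Q) := by
  have h := S.zone_arith hQ
  have h1 := S.ty_rf Q hQ
  rcases Bool.eq_false_or_eq_true (S.ty Q) with ht | ht
  · rw [ht, Bool.not_true] at h1
    rw [S.refl.tw_false h1, S.tw_true ht, S.zs_rf Q hQ, S.nb_rf Q hQ]
    omega
  · rw [ht, Bool.not_false] at h1
    have h2 := S.it_pos hQ ht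
    rw [S.it_false ht] at h2
    rw [S.refl.tw_true h1, S.tw_false ht, S.ze_rf Q hQ]
    omega

theorem Sys.mkd_rf (S : Sys n) (Q : Core n) (hQ : Q ∈ S.cores) :
    S.refl.mkd (Core.refl S.m Q) = S.m - 1 - S.mkd Q := by
  have h := S.zone_arith hQ
  have hlt := S.core_lt Q hQ
  have h1 := S.ty_rf Q hQ
  rcases Bool.eq_false_or_eq_true (S.ty Q) with ht | ht
  · rw [ht, Bool.not_true] at h1
    rw [S.refl.mkd_false h1, S.mkd_true ht, S.it_rf Q hQ]
    omega
  · rw [ht, Bool.not_false] at h1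
    rw [S.refl.mkd_true h1, S.mkd_false ht, S.ib_rf Q hQ]
    omega

theorem Sys.tl_rf (S : Sys n) (Q : Core n) (hQ : Q ∈ S.cores) {ℓ : ℕ}
    (h1 : S.lev (S.zs Q) ≤ ℓ) (h2 : ℓ ≤ S.lev (S.ze Q)) :
    S.refl.tl (Core.refl S.m Q) (n - ℓ) = S.m - S.tl Q ℓ := by
  have h := S.zone_arith hQ
  have h3 := S.lev_le_n (k := S.ze Q) (by omega)
  have h4 : S.nb Q = S.lev (S.ze Q) - S.lev (S.zs Q) := rfl
  unfold Sys.tl
  rw [S.tw_rf Q hQ, S.zs_rf Q hQ, S.lev_rf (by omega)]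
  omega

/-- bits of the reflected row at reflected role / signature bits -/
theorem Sys.bit_rb_rf (S : Sys n) (x : Rw n) {d : ℕ} (hd : d < S.m) :
    bit (rv x) (S.refl.rb d) = bit x (S.rb (S.m - 1 - d)) := by
  have h1 := S.rb_mem (k := S.m - 1 - d) (by omega)
  show bit (rv x) (n - 1 - S.rb (S.m - 1 - d)) = _
  rw [bit_rv _ (by omega)]
  congr 1
  omega

theorem Sys.bit_sb_rf (S : Sys n) (x : Rw n) {d : ℕ} (hd : d < S.m) :
    bit (rv x) (S.refl.sb d) = bit x (S.sb (S.m - 1 - d)) := by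
  have h1 := S.sb_mem (k := S.m - 1 - d) (by omega)
  show bit (rv x) (n - 1 - S.sb (S.m - 1 - d)) = _
  rw [bit_rv _ (by omega)]
  congr 1
  omega

theorem Sys.InR_rf (S : Sys n) (Q : Core n) (hQ : Q ∈ S.cores) (w x : Rw n) :
    S.refl.InR (Core.refl S.m Q) (rv w) (rv x) ↔ S.InR Q w x := by
  have h := S.zone_arith hQ
  have hlt := S.core_lt Q hQ
  have hmk := S.mkd_mem hQ
  have hn := S.lev_le_n (k := S.ze Q) (by omega)
  have hnb : S.nb Q = S.lev (S.ze Q) - S.lev (S.zs Q) := rfl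
  unfold Sys.InR
  rw [S.it_rf Q hQ, S.ib_rf Q hQ, S.mkd_rf Q hQ, S.nb_rf Q hQ, S.tw_rf Q hQ, S.zs_rf Q hQ,
    S.lev_rf (by omega), S.lev_rf (by omega), S.lev_rf (by omega),
    agOut_rv (S.lev_le_n (by omega)) (S.lev_le_n (by omega))]
  refine and_congr Iff.rfl (and_congr ?_ ?_)
  · constructor
    · intro h1 d hd1 hd2
      have h2 := h1 (S.m - 1 - d) (by omega) (by omega)
      rw [S.bit_sb_rf _ (by omega), show S.m - 1 - (S.m - 1 - d) = d by omega] at h2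
      rw [h2]
      exact decide_eq_decide.2 (by omega)
    · intro h1 d hd1 hd2
      have h2 := h1 (S.m - 1 - d) (by omega) (by omega)
      rw [S.bit_sb_rf _ (by omega), h2]
      exact decide_eq_decide.2 (by omega)
  · constructor
    · intro h1 j hj
      have h2 := h1 (S.nb Q - 1 - j) (by omega)
      rw [S.bit_rb_rf _ (by omega), bit_rv _ (by omega)] at h2
      rw [show S.tw Q + j = S.m - 1 - (S.m - (S.tw Q + S.nb Q) + (S.nb Q - 1 - j)) by omega,
        show S.lev (S.zs Q) + j = n - 1 - (n - S.lev (S.ze Q) + (S.nb Q - 1 - j)) by omega]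
      exact h2
    · intro h1 j hj
      have h2 := h1 (S.nb Q - 1 - j) (by omega)
      rw [S.bit_rb_rf _ (by omega), bit_rv _ (by omega)]
      rw [show S.m - 1 - (S.m - (S.tw Q + S.nb Q) + j) = S.tw Q + (S.nb Q - 1 - j) by omega,
        show n - 1 - (n - S.lev (S.ze Q) + j) = S.lev (S.zs Q) + (S.nb Q - 1 - j) by omega]
      exact h2

theorem Sys.special_rf (S : Sys n) (Q : Core n) (hQ : Q ∈ S.cores) (u : Node n) :
    S.refl.special (Core.refl S.m Q) (rf u) ↔ S.special Q u := by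
  have h := S.zone_arith hQ
  have hu := u.2.isLt
  have hlt := S.core_lt Q hQ
  unfold Sys.special
  rw [S.it_rf Q hQ, S.ib_rf Q hQ, rf_snd]
  have key : ∀ β, β ≤ S.m → (S.refl.h Q.i ∣ S.m - β + S.refl.o ↔ S.h Q.i ∣ β + S.o) := by
    intro β hβ
    obtain ⟨t, ht⟩ := S.o_refl (S.core_top Q hQ) hβ
    refine dvd_refl_iff (t := 2 * t) ?_
    show (S.m - β + S.refl.o) + (β + S.o) = S.h0 * S.M ^ Q.i * (2 * t)
    rw [show S.h0 * S.M ^ Q.i * (2 * t) = (2 * (S.h0 * S.M ^ Q.i)) * t by ring]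
    exact ht
  constructor
  · rintro ⟨β, h1, h2, h3, h4⟩
    have hβ : β ≤ S.m := by omega
    refine ⟨S.m - β, by omega, by omega, ?_, ?_⟩
    · rw [← key (S.m - β) (by omega), show S.m - (S.m - β) = β by omega]
      exact h3
    · have h5 : n - u.2.val = n - S.lev (S.m - β) := h4
      have h6 := S.lev_le_n (k := S.m - β) (by omega)
      omega
  · rintro ⟨β, h1, h2, h3, h4⟩
    refine ⟨S.m - β, by omega, by omega, ?_, ?_⟩
    · exact (key β (by omega)).2 h3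
    · rw [S.lev_rf (by omega), h4]

/-- one inclusion of `PR_rf`, at the level of the defining data -/
theorem Sys.PR_rf_aux (S : Sys n) (Q : Core n) (hQ : Q ∈ S.cores) (u a : Node n) :
    (S.refl.inZ (Core.refl S.m Q) (rf u).1 ∧ ∃ k, S.refl.it (Core.refl S.m Q) ≤ k ∧
      k ≤ S.refl.ib (Core.refl S.m Q) ∧ (rf a).2.val = S.refl.lev k ∧
      S.refl.InR (Core.refl S.m Q) (rf u).1 (rf a).1 ∧ (S.refl.special (Core.refl S.m Q) (rf u) ∨
      (k ≤ S.refl.tl (Core.refl S.m Q) (rf u).2.val + 1 ∧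
        S.refl.tl (Core.refl S.m Q) (rf u).2.val ≤ k + 1 ∧
      S.refl.lev (S.refl.zs (Core.refl S.m Q)) ≤ (rf u).2.val ∧
      (rf u).2.val ≤ S.refl.lev (S.refl.ze (Core.refl S.m Q))))) ↔
    (S.inZ Q u.1 ∧ ∃ k, S.it Q ≤ k ∧ k ≤ S.ib Q ∧ a.2.val = S.lev k ∧
    S.InR Q u.1 a.1 ∧ (S.special Q u ∨ (k ≤ S.tl Q u.2.val + 1 ∧ S.tl Q u.2.val ≤ k + 1 ∧
      S.lev (S.zs Q) ≤ u.2.val ∧ u.2.val ≤ S.lev (S.ze Q)))) := by
  have h := S.zone_arith hQ
  have hu := u.2.isLt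
  have ha := a.2.isLt
  have hlt := S.core_lt Q hQ
  have hn := S.lev_le_n (k := S.ze Q) (by omega)
  have hn' := S.lev_le_n (k := S.zs Q) (by omega)
  have hnb : S.nb Q = S.lev (S.ze Q) - S.lev (S.zs Q) := rfl
  rw [rf_fst, rf_fst, S.inZ_rf Q hQ, S.InR_rf Q hQ, S.special_rf Q hQ, S.it_rf Q hQ, S.ib_rf Q hQ,
    S.zs_rf Q hQ, S.ze_rf Q hQ, S.lev_rf (by omega), S.lev_rf (by omega), rf_snd, rf_snd]
  refine and_congr Iff.rfl ?_
  constructor
  · rintro ⟨k, h1, h2, h3, h4, h5⟩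
    have hk : k ≤ S.m := by omega
    refine ⟨S.m - k, by omega, by omega, ?_, h4, ?_⟩
    · have h6 : n - a.2.val = n - S.lev (S.m - k) := h3
      have h7 := S.lev_le_n (k := S.m - k) (by omega)
      omega
    · rcases h5 with h5 | ⟨h5, h6, h7, h8⟩
      · exact Or.inl h5
      · right
        have h9 : S.lev (S.zs Q) ≤ u.2.val := by omega
        have h10 : u.2.val ≤ S.lev (S.ze Q) := by omega
        rw [S.tl_rf Q hQ h9 h10] at h5 h6
        have h11 : S.tl Q u.2.val ≤ S.m := by unfold Sys.tl; omega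
        exact ⟨by omega, by omega, h9, h10⟩
  · rintro ⟨k, h1, h2, h3, h4, h5⟩
    refine ⟨S.m - k, by omega, by omega, ?_, h4, ?_⟩
    · rw [S.lev_rf (by omega), h3]
    · rcases h5 with h5 | ⟨h5, h6, h7, h8⟩
      · exact Or.inl h5
      · right
        rw [S.tl_rf Q hQ h7 h8]
        exact ⟨by omega, by omega, by omega, by omega⟩

theorem Sys.PR_rf (S : Sys n) (u : Node n) : S.refl.PR (rf u) = {a | rf a ∈ S.PR u} := by
  ext a
  constructor
  · rintro ⟨_, ⟨Q, hQ, rfl⟩, h⟩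
    have ha : a = rf (rf a) := (rf_rf a).symm
    rw [ha] at h
    exact ⟨Q, hQ, (S.PR_rf_aux Q hQ u (rf a)).1 h⟩
  · rintro ⟨Q, hQ, h⟩
    refine ⟨Core.refl S.m Q, ⟨Q, hQ, rfl⟩, ?_⟩
    have h1 := (S.PR_rf_aux Q hQ u (rf a)).2 h
    rw [rf_rf] at h1
    exact h1

end Pool.Agent.Bfly
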