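import Pool.Agent.Lib.MP_d71b33_lc_h91.Defs

/-!
# Static redundant emulations give emulations

A finite system of copies (compute copies and relay copies) with potentials yields an emulation with
constant slowdown.
-/

namespace Pool.Agent.Bfly

open Set

variable {V W : Type*} (G : SimpleGraph V) (H : SimpleGraph W) (F : Set W)

/-- `Near H F r x y`: there is a path of at most `r` edges from `x` to `y` avoiding `F`. -/
inductive Near (H : SimpleGraph W) (F : Set W) : ℕ → W → W → Prop
  | refl {x : W} (hx : x ∉ F) (r : ℕ) : Near H F r x x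
  | step {r : ℕ} {x y z : W} (h : Near H F r x y) (hz : z ∉ F) (hyz : H.Adj y z) :
      Near H F (r + 1) x z

variable {H F}

theorem Near.mono_succ {r : ℕ} {x y : W} (h : Near H F r x y) : Near H F (r + 1) x y := by
  induction h with
  | refl hx r => exact Near.refl hx _
  | step h hz hyz ih => exact Near.step ih hz hyz

theorem Near.mono {r s : ℕ} (hrs : r ≤ s) {x y : W} (h : Near H F r x y) : Near H F s x y := by
  induction hrs with
  | refl => exact h
  | step _ ih => exact ih.mono_succ

theorem Near.left {r : ℕ} {x y : W} (h : Near H F r x y) : x ∉ F := by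
  induction h with
  | refl hx r => exact hx
  | step h hz hyz ih => exact ih

theorem Near.right {r : ℕ} {x y : W} (h : Near H F r x y) : y ∉ F := by
  cases h with
  | refl hx r => exact hx
  | step h hz hyz => exact hz

theorem Near.trans {r s : ℕ} {x y z : W} (h : Near H F r x y) (h' : Near H F s y z) :
    Near H F (r + s) x z := by
  induction h' with
  | refl hx s => exact h.mono (by omega)
  | step h' hz hyz ih => exact Near.step (ih h) hz hyz

theorem Near.single {x y : W} (hx : x ∉ F) (hy : y ∉ F) (h : H.Adj x y) : Near H F 1 x y :=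
  Near.step (Near.refl hx 0) hy h

theorem Near.symm {r : ℕ} {x y : W} (h : Near H F r x y) : Near H F r y x := by
  induction h with
  | refl hx r => exact Near.refl hx r
  | step h hz hyz ih =>
    have := (Near.single hz h.right hyz.symm).trans ih
    rwa [Nat.add_comm] at this

theorem near_zero {x y : W} (h : Near H F 0 x y) : x = y := by
  cases h with
  | refl hx r => rfl

variable (H F)

/-- one step of the host network -/
def stepMem (c : W → Item V) (s : W → W → Item V) (M : W → Set (Item V)) (h : W) : Set (Item V) :=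
  {x | h ∉ F ∧ (x ∈ M h ∨ (x = c h ∧ Computable G (M h) x) ∨
      (IsMsg x ∧ ∃ h', h' ∉ F ∧ H.Adj h' h ∧ x = s h' h ∧ x ∈ M h'))}

theorem Computable.mono {M N : Set (Item V)} (h : M ⊆ N) {x : Item V} (hx : Computable G M x) :
    Computable G N x := by
  cases x with
  | state v t =>
    cases t with
    | zero => exact hx.elim
    | succ t => exact ⟨h hx.1, fun u hu => h (hx.2 u hu)⟩
  | msg u v t => exact ⟨hx.1, h hx.2⟩

theorem stepMem_mono {c : W → Item V} {s : W → W → Item V} {M N : W → Set (Item V)}
    (hMN : ∀ h, M h ⊆ N h) (h : W) : stepMem G H F c s M h ⊆ stepMem G H F c s N h := by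
  rintro x ⟨hF, hx⟩
  refine ⟨hF, ?_⟩
  rcases hx with hx | ⟨hx, hc⟩ | ⟨hm, h', h1, h2, h3, h4⟩
  · exact Or.inl (hMN h hx)
  · exact Or.inr (Or.inl ⟨hx, Computable.mono G (hMN h) hc⟩)
  · exact Or.inr (Or.inr ⟨hm, h', h1, h2, h3, hMN h' h4⟩)

/-- several steps of the host network -/
def runMem (c : ℕ → W → Item V) (s : ℕ → W → W → Item V) : ℕ → (W → Set (Item V)) →
    W → Set (Item V)
  | 0, M => M
  | n + 1, M => stepMem G H F (c n) (s n) (runMem c s n M)

theorem runMem_mono {c : ℕ → W → Item V} {s : ℕ → W → W → Item V} (n : ℕ)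
    {M N : W → Set (Item V)} (hMN : ∀ h, M h ⊆ N h) (h : W) :
    runMem G H F c s n M h ⊆ runMem G H F c s n N h := by
  induction n generalizing h with
  | zero => exact hMN h
  | succ n ih => exact stepMem_mono G H F ih h

theorem runMem_congr {c c' : ℕ → W → Item V} {s s' : ℕ → W → W → Item V} (n : ℕ)
    (hc : ∀ j < n, c j = c' j) (hs : ∀ j < n, s j = s' j) (M : W → Set (Item V)) :
    runMem G H F c s n M = runMem G H F c' s' n M := by
  induction n with
  | zero => rfl
  | succ n ih =>
    show stepMem G H F (c n) (s n) (runMem G H F c s n M) =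
      stepMem G H F (c' n) (s' n) (runMem G H F c' s' n M)
    rw [hc n (by omega), hs n (by omega), ih (fun j hj => hc j (by omega))
      (fun j hj => hs j (by omega))]

theorem runMem_add {c : ℕ → W → Item V} {s : ℕ → W → W → Item V} (n m : ℕ)
    (M : W → Set (Item V)) :
    runMem G H F c s (n + m) M =
      runMem G H F (fun j => c (n + j)) (fun j => s (n + j)) m (runMem G H F c s n M) := by
  induction m with
  | zero => rfl
  | succ m ih =>
    show stepMem G H F (c (n + m)) (s (n + m)) (runMem G H F c s (n + m) M) = _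
    rw [ih]; rfl

/-- `M'` can be reached from `M` in `n` steps -/
def Reach (n : ℕ) (M M' : W → Set (Item V)) : Prop :=
  ∃ (c : ℕ → W → Item V) (s : ℕ → W → W → Item V), ∀ h, M' h ⊆ runMem G H F c s n M h

theorem Reach.weaken {n : ℕ} {M M' N N' : W → Set (Item V)} (h : Reach G H F n M M')
    (h1 : ∀ x, M x ⊆ N x) (h2 : ∀ x, N' x ⊆ M' x) : Reach G H F n N N' := by
  obtain ⟨c, s, hc⟩ := h
  exact ⟨c, s, fun x => (h2 x).trans ((hc x).trans (runMem_mono G H F n h1 x))⟩

theorem Reach.trans {n m : ℕ} {M M' M'' : W → Set (Item V)} (h : Reach G H F n M M')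
    (h' : Reach G H F m M' M'') : Reach G H F (n + m) M M'' := by
  obtain ⟨c, s, hc⟩ := h
  obtain ⟨c', s', hc'⟩ := h'
  refine ⟨fun j => if j < n then c j else c' (j - n), fun j => if j < n then s j else s' (j - n),
    fun x => ?_⟩
  rw [runMem_add]
  refine (hc' x).trans ?_
  have e1 : runMem G H F (fun j => if j < n then c j else c' (j - n))
      (fun j => if j < n then s j else s' (j - n)) n M = runMem G H F c s n M := by
    apply runMem_congr
    · intro j hj; simp [hj]
    · intro j hj; simp [hj]
  have e2 : ∀ N : W → Set (Item V), runMem G H F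
      (fun j => (fun j => if j < n then c j else c' (j - n)) (n + j))
      (fun j => (fun j => if j < n then s j else s' (j - n)) (n + j)) m N =
      runMem G H F c' s' m N := by
    intro N
    apply runMem_congr
    · intro j hj; simp
    · intro j hj; simp
  rw [e1, e2]
  exact runMem_mono G H F m hc x

theorem exists_enum {α : Type*} [Nonempty α] (A : Set α) (P : ℕ) (h : A.encard ≤ P) :
    ∃ e : ℕ → α, ∀ x ∈ A, ∃ i < P, e i = x := by
  classical
  have hfin : A.Finite := finite_of_encard_le_coe h
  obtain ⟨a0⟩ := (inferInstance : Nonempty α)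
  refine ⟨fun i => hfin.toFinset.toList.getD i a0, fun x hx => ?_⟩
  have hx' : x ∈ hfin.toFinset.toList := by simpa using hx
  obtain ⟨i, hi, hix⟩ := List.getElem_of_mem hx'
  refine ⟨i, ?_, ?_⟩
  · refine lt_of_lt_of_le hi ?_
    rw [Finset.length_toList]
    have : (hfin.toFinset.card : ℕ∞) ≤ P := by
      rw [← hfin.encard_eq_coe_toFinset_card]; exact h
    exact_mod_cast this
  · simp only [List.getD_eq_getElem?_getD, List.getElem?_eq_getElem hi, Option.getD_some]
    exact hix

/-- adding at most `P` items at each host -/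
theorem add_items [Nonempty V] (P : ℕ) (M A : W → Set (Item V)) (hM : ∀ h x, x ∈ M h → h ∉ F)
    (hA : ∀ h, (A h).encard ≤ P)
    (hA' : ∀ h, ∀ x ∈ A h, h ∉ F ∧ (x ∈ M h ∨ Computable G (M h) x ∨
      (IsMsg x ∧ ∃ h', h' ∉ F ∧ H.Adj h' h ∧ x ∈ M h'))) :
    Reach G H F P M (fun h => M h ∪ A h) := by
  have : Nonempty (Item V) := ⟨Item.state (Classical.arbitrary V) 0⟩
  choose e he using fun h => exists_enum (A h) P (hA h)
  have key : ∀ n, ∀ h, M h ∪ {x | x ∈ A h ∧ ∃ i < n, e h i = x} ⊆
      runMem G H F (fun j h => e h j) (fun j _ h => e h j) n M h := by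
    intro n
    induction n with
    | zero =>
      intro h x hx
      rcases hx with hx | ⟨_, i, hi, _⟩
      · exact hx
      · omega
    | succ n ih =>
      intro h
      refine Subset.trans ?_ (stepMem_mono G H F ih h)
      intro x hx
      have hF : h ∉ F := by
        rcases hx with hx | hx
        · exact hM h x hx
        · exact (hA' h x hx.1).1
      refine ⟨hF, ?_⟩
      rcases hx with hx | ⟨hx, i, hi, hix⟩
      · exact Or.inl (Or.inl hx)
      · rcases Nat.lt_or_ge i n with hin | hin
        · exact Or.inl (Or.inr ⟨hx, i, hin, hix⟩)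
        · have hi' : i = n := by omega
          subst hi'
          rcases (hA' h x hx).2 with h1 | h1 | ⟨h1, h', h2, h3, h4⟩
          · exact Or.inl (Or.inl h1)
          · exact Or.inr (Or.inl ⟨hix.symm, Computable.mono G (subset_union_left) h1⟩)
          · exact Or.inr (Or.inr ⟨h1, h', h2, h3, hix.symm, Or.inl h4⟩)
  refine ⟨fun j h => e h j, fun j _ h => e h j, fun h => ?_⟩
  refine Subset.trans ?_ (key P h)
  rintro x (hx | hx)
  · exact Or.inl hx
  · exact Or.inr ⟨hx, he h x hx⟩

theorem memory_eq_run (σ : Schedule V W) (n : ℕ) :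
    memory G H F σ n = runMem G H F σ.comp σ.send n (memory G H F σ 0) := by
  induction n with
  | zero => rfl
  | succ n ih =>
    show _ = stepMem G H F (σ.comp n) (σ.send n) (runMem G H F σ.comp σ.send n _)
    rw [← ih]; rfl

theorem memory_not_faulty (σ : Schedule V W) (n : ℕ) (h : W) (x : Item V)
    (hx : x ∈ memory G H F σ n h) : h ∉ F := by
  cases n with
  | zero => exact hx.1
  | succ n => exact hx.1

theorem memory_mono (σ : Schedule V W) {m n : ℕ} (hmn : m ≤ n) (h : W) :
    memory G H F σ m h ⊆ memory G H F σ n h := by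
  induction hmn with
  | refl => exact Subset.rfl
  | step _ ih =>
    intro x hx
    exact ⟨memory_not_faulty G H F σ _ h x (ih hx), Or.inl (ih hx)⟩

theorem encard_le_mul {α β : Type*} {ι : Type*} (s : Set ι) (t : ι → Set α) (f : ι → α → β)
    (K L : ℕ) (hs : s.encard ≤ K) (ht : ∀ i ∈ s, (t i).encard ≤ L) (A : Set β)
    (hA : ∀ x ∈ A, ∃ i ∈ s, ∃ a ∈ t i, f i a = x) : A.encard ≤ (K * L : ℕ) := by
  classical
  have hfin : s.Finite := finite_of_encard_le_coe hs
  have htfin : ∀ i ∈ s, (t i).Finite := fun i hi => finite_of_encard_le_coe (ht i hi)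
  let T : ι → Finset α := fun i => if hi : i ∈ s then (htfin i hi).toFinset else ∅
  have hsub : A ⊆ ↑(hfin.toFinset.biUnion (fun i => (T i).image (f i))) := by
    intro x hx
    obtain ⟨i, hi, a, ha, hfa⟩ := hA x hx
    simp only [Finset.coe_biUnion, Finite.coe_toFinset, Finset.coe_image, mem_iUnion, mem_image]
    refine ⟨i, hi, a, ?_, hfa⟩
    simp only [T, hi, dif_pos, Finite.coe_toFinset]
    exact ha
  refine (encard_le_encard hsub).trans ?_
  rw [encard_coe_eq_coe_finsetCard]
  have h1 : (hfin.toFinset.biUnion (fun i => (T i).image (f i))).card ≤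
      hfin.toFinset.card * L := by
    apply Finset.card_biUnion_le_card_mul
    intro i hi
    have hi' : i ∈ s := by simpa using hi
    refine Finset.card_image_le.trans ?_
    simp only [T, hi', dif_pos]
    have : ((htfin i hi').toFinset.card : ℕ∞) ≤ L := by
      rw [← (htfin i hi').encard_eq_coe_toFinset_card]; exact ht i hi'
    exact_mod_cast this
  have h2 : hfin.toFinset.card ≤ K := by
    have : (hfin.toFinset.card : ℕ∞) ≤ K := by
      rw [← hfin.encard_eq_coe_toFinset_card]; exact hs
    exact_mod_cast this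
  exact_mod_cast h1.trans (Nat.mul_le_mul_right L h2)

/-- Static redundant emulations. `role c` is the guest processor whose data the copy `c` holds,
`host c` the working host processor where it sits, `mu c` its delay. A copy is a compute copy or a
relay copy. -/
theorem emulates_of_copies [Nonempty V] {C : Type*} (role : C → V) (host : C → W) (mu : C → ℕ)
    (comp : C → Prop) (K0 K1 D R S : ℕ) (hS : 1 ≤ S)
    (hF : ∀ c, host c ∉ F)
    (hK : ∀ x, {c | host c = x}.encard ≤ K0)
    (hK1 : ∀ x, {c | Near H F R (host c) x}.encard ≤ K1)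
    (hG : ∀ v, {u | G.Adj v u}.encard ≤ D)
    (hrelay : ∀ c, ¬ comp c → ∃ s, role s = role c ∧ Near H F R (host s) (host c) ∧
      mu s + 1 ≤ mu c)
    (hcomp : ∀ c, comp c → ∀ v, G.Adj v (role c) → ∃ s, role s = v ∧
      Near H F R (host s) (host c) ∧ mu s + 1 ≤ S + mu c)
    (htop : ∀ v, ∃ c, comp c ∧ role c = v ∧ mu c ≤ S) :
    Emulates G H F (K0 + (K0 + K0 * D + R * (K1 * D)) * (2 * S + 1)) := by
  classical
  obtain ⟨B, hB⟩ : ∃ B, B = K0 + K0 * D + R * (K1 * D) := ⟨_, rfl⟩
  rw [← hB]
  -- the memories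
  let I : W → Set (Item V) := fun h => {x | ∃ c, comp c ∧ host c = h ∧ x = Item.state (role c) 0}
  let MM : ℕ → W → Set (Item V) := fun τ h => I h ∪
    ({x | ∃ c t, comp c ∧ host c = h ∧ S * t + mu c < τ ∧ x = Item.state (role c) t} ∪
     {x | ∃ c v t, Near H F R (host c) h ∧ S * t + mu c < τ ∧ G.Adj (role c) v ∧
        x = Item.msg (role c) v t})
  have hMMF : ∀ τ h x, x ∈ MM τ h → h ∉ F := by
    rintro τ h x (⟨c, _, rfl, _⟩ | ⟨c, t, _, rfl, _⟩ | ⟨c, v, t, h1, _⟩)
    · exact hF c
    · exact hF c
    · exact h1.right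
  have htime : ∀ (t : ℕ) (c : C) (τ : ℕ), S * t + mu c = τ → t = (τ - mu c) / S := by
    intro t c τ h
    have h1 : τ - mu c = S * t := by omega
    rw [h1, Nat.mul_div_cancel_left t (by omega)]
  have hstep : ∀ τ, Reach G H F B (MM τ) (MM (τ + 1)) := by
    intro τ
    -- phase 1: new states
    let A1 : W → Set (Item V) := fun h =>
      {x | ∃ c t, comp c ∧ host c = h ∧ S * t + mu c = τ ∧ x = Item.state (role c) t}
    have r1 : Reach G H F K0 (MM τ) (fun h => MM τ h ∪ A1 h) := by
      apply add_items G H F K0 (MM τ) A1 (hMMF τ)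
      · intro h
        refine le_trans (encard_le_encard (t := (fun c => Item.state (role c) ((τ - mu c) / S)) ''
          {c | host c = h}) ?_) ((encard_image_le _ _).trans (hK h))
        rintro x ⟨c, t, _, hc, ht, rfl⟩
        exact ⟨c, hc, by show Item.state (role c) ((τ - mu c) / S) = _; rw [← htime t c τ ht]⟩
      · rintro h x ⟨c, t, hcc, rfl, ht, rfl⟩
        refine ⟨hF c, ?_⟩
        rcases t with _ | t
        · exact Or.inl (Or.inl ⟨c, hcc, rfl, rfl⟩)
        · refine Or.inr (Or.inl ⟨?_, ?_⟩)
          · refine Or.inr (Or.inl ⟨c, t, hcc, rfl, ?_, rfl⟩)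
            rw [Nat.mul_succ] at ht; omega
          · intro u hu
            obtain ⟨s, hs1, hs2, hs3⟩ := hcomp c hcc u hu
            refine Or.inr (Or.inr ⟨s, role c, t, hs2, ?_, ?_, ?_⟩)
            · rw [Nat.mul_succ] at ht; omega
            · rw [hs1]; exact hu
            · rw [hs1]
    -- phase 2: new messages at the hosts
    let Fl : ℕ → W → Set (Item V) := fun r h =>
      {x | ∃ c v t, Near H F r (host c) h ∧ S * t + mu c = τ ∧ G.Adj (role c) v ∧
        x = Item.msg (role c) v t}
    have hFlF : ∀ r h x, x ∈ Fl r h → h ∉ F := by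
      rintro r h x ⟨c, v, t, h1, _⟩
      exact h1.right
    have hFlmsg : ∀ r h x, x ∈ Fl r h → IsMsg x := by
      rintro r h x ⟨c, v, t, _, _, _, rfl⟩
      trivial
    have r2 : Reach G H F (K0 * D) (fun h => MM τ h ∪ A1 h)
        (fun h => (MM τ h ∪ A1 h) ∪ Fl 0 h) := by
      apply add_items G H F (K0 * D)
      · rintro h x (hx | ⟨c, t, _, rfl, _⟩)
        · exact hMMF τ h x hx
        · exact hF c
      · intro h
        refine encard_le_mul {c | host c = h} (fun c => {u | G.Adj (role c) u})
          (fun c u => Item.msg (role c) u ((τ - mu c) / S)) K0 D (hK h) (fun c _ => hG _) _ ?_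
        rintro x ⟨c, v, t, h1, h2, h3, rfl⟩
        exact ⟨c, near_zero h1, v, h3, by rw [← htime t c τ h2]⟩
      · rintro h x ⟨c, v, t, h1, h2, h3, rfl⟩
        have hch : host c = h := near_zero h1
        refine ⟨h1.right, ?_⟩
        by_cases hcc : comp c
        · exact Or.inr (Or.inl ⟨h3, Or.inr ⟨c, t, hcc, hch, h2, rfl⟩⟩)
        · left
          obtain ⟨s, hs1, hs2, hs3⟩ := hrelay c hcc
          refine Or.inl (Or.inr (Or.inr ⟨s, v, t, hch ▸ hs2, by omega, ?_, ?_⟩))
          · rw [hs1]; exact h3
          · rw [hs1]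
    have r3 : ∀ r ≤ R, Reach G H F (r * (K1 * D)) (fun h => (MM τ h ∪ A1 h) ∪ Fl 0 h)
        (fun h => (MM τ h ∪ A1 h) ∪ Fl r h) := by
      intro r
      induction r with
      | zero =>
        intro _
        rw [Nat.zero_mul]
        have : Nonempty (Item V) := ⟨Item.state (Classical.arbitrary V) 0⟩
        exact ⟨fun _ _ => Classical.arbitrary _, fun _ _ _ => Classical.arbitrary _,
          fun h => Subset.rfl⟩
      | succ r ih =>
        intro hr
        have h0 := ih (by omega)
        have h1 : Reach G H F (K1 * D) (fun h => (MM τ h ∪ A1 h) ∪ Fl r h)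
            (fun h => ((MM τ h ∪ A1 h) ∪ Fl r h) ∪ Fl (r + 1) h) := by
          apply add_items G H F (K1 * D)
          · rintro h x ((hx | ⟨c, t, _, rfl, _⟩) | hx)
            · exact hMMF τ h x hx
            · exact hF c
            · exact hFlF _ _ _ hx
          · intro h
            refine encard_le_mul {c | Near H F R (host c) h} (fun c => {u | G.Adj (role c) u})
              (fun c u => Item.msg (role c) u ((τ - mu c) / S)) K1 D (hK1 h) (fun c _ => hG _) _ ?_
            rintro x ⟨c, v, t, h1, h2, h3, rfl⟩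
            exact ⟨c, h1.mono hr, v, h3, by rw [← htime t c τ h2]⟩
          · intro h x hx
            refine ⟨hFlF _ _ _ hx, ?_⟩
            have hmsg := hFlmsg _ _ _ hx
            obtain ⟨c, v, t, h1, h2, h3, rfl⟩ := hx
            cases h1 with
            | refl hx' => exact Or.inl (Or.inr ⟨c, v, t, Near.refl hx' _, h2, h3, rfl⟩)
            | step h4 h5 h6 =>
              exact Or.inr (Or.inr ⟨hmsg, _, h4.right, h6, Or.inr ⟨c, v, t, h4, h2, h3, rfl⟩⟩)
        have h2 := (h0.trans G H F h1).weaken G H F (N := fun h => (MM τ h ∪ A1 h) ∪ Fl 0 h)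
          (N' := fun h => (MM τ h ∪ A1 h) ∪ Fl (r + 1) h) (fun _ => Subset.rfl)
          (fun h x hx => by
            rcases hx with hx | hx
            · exact Or.inl (Or.inl hx)
            · exact Or.inr hx)
        rw [Nat.succ_mul]
        exact h2
    have r4 := (r1.trans G H F r2).trans G H F (r3 R le_rfl)
    rw [← hB] at r4
    refine r4.weaken G H F (fun _ => Subset.rfl) ?_
    rintro h x (hx | ⟨c, t, hcc, hc, ht, rfl⟩ | ⟨c, v, t, h1, h2, h3, rfl⟩)
    · exact Or.inl (Or.inl (Or.inl hx))
    · rcases Nat.lt_or_ge (S * t + mu c) τ with h | h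
      · exact Or.inl (Or.inl (Or.inr (Or.inl ⟨c, t, hcc, hc, h, rfl⟩)))
      · exact Or.inl (Or.inr ⟨c, t, hcc, hc, by omega, rfl⟩)
    · rcases Nat.lt_or_ge (S * t + mu c) τ with h | h
      · exact Or.inl (Or.inl (Or.inr (Or.inr ⟨c, v, t, h1, h, h3, rfl⟩)))
      · exact Or.inr ⟨c, v, t, h1, by omega, h3, rfl⟩
  -- the schedule
  choose cc ss hcs using hstep
  have hfin : ∀ h, ({c | host c = h} : Set C).Finite := fun h => finite_of_encard_le_coe (hK h)
  have hfin' : ∀ h, ({c | comp c ∧ host c = h} : Set C).Finite :=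
    fun h => (hfin h).subset (fun c hc => hc.2)
  let σ : Schedule V W :=
    { start := fun h => (hfin' h).toFinset.image role
      comp := fun j => cc (j / B) (j % B)
      send := fun j => ss (j / B) (j % B) }
  have hstart : ∀ h, (σ.start h).card ≤ K0 := by
    intro h
    refine Finset.card_image_le.trans ?_
    have h1 : ((hfin' h).toFinset.card : ℕ∞) ≤ K0 := by
      rw [← (hfin' h).encard_eq_coe_toFinset_card]
      exact (encard_le_encard (fun c hc => hc.2)).trans (hK h)
    exact_mod_cast h1
  have h0 : ∀ h, MM 0 h ⊆ memory G H F σ 0 h := by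
    rintro h x (⟨c, hcc, rfl, rfl⟩ | ⟨c, t, _, _, ht, _⟩ | ⟨c, v, t, _, ht, _⟩)
    · refine ⟨hF c, role c, ?_, rfl⟩
      simp only [σ, Finset.mem_image, Finite.mem_toFinset, mem_ofPred_eq]
      exact ⟨c, ⟨hcc, rfl⟩, rfl⟩
    · omega
    · omega
  have hI : ∀ h, I h ⊆ memory G H F σ 0 h := fun h x hx => h0 h (Or.inl hx)
  by_cases hB0 : B = 0
  · -- then there are no copies at all
    exfalso
    obtain ⟨c, _⟩ := htop (Classical.arbitrary V)
    have hK00 : K0 = 0 := by omega
    have h1 := hK (host c)
    rw [hK00] at h1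
    have h2 : ({c' | host c' = host c} : Set C) = ∅ := by
      rw [← encard_eq_zero]; exact le_antisymm (by exact_mod_cast h1) bot_le
    have h3 : c ∈ ({c' | host c' = host c} : Set C) := rfl
    rw [h2] at h3
    exact h3
  have hBpos : 0 < B := Nat.pos_of_ne_zero hB0
  have hmain : ∀ τ, ∀ h, MM τ h ⊆ memory G H F σ (B * τ) h := by
    intro τ
    induction τ with
    | zero => simpa using h0
    | succ τ ih =>
      intro h
      refine (hcs τ h).trans ?_
      have e0 : memory G H F σ (B * (τ + 1)) = runMem G H F (fun j => σ.comp (B * τ + j))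
          (fun j => σ.send (B * τ + j)) B (memory G H F σ (B * τ)) := by
        rw [Nat.mul_succ, memory_eq_run, runMem_add, ← memory_eq_run]
      rw [e0]
      have e : runMem G H F (fun j => σ.comp (B * τ + j)) (fun j => σ.send (B * τ + j)) B
          (memory G H F σ (B * τ)) = runMem G H F (cc τ) (ss τ) B (memory G H F σ (B * τ)) := by
        apply runMem_congr
        · intro j hj
          show cc ((B * τ + j) / B) ((B * τ + j) % B) = cc τ j
          rw [Nat.mul_add_div hBpos, Nat.div_eq_of_lt hj, Nat.mul_add_mod, Nat.mod_eq_of_lt hj]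
          rfl
        · intro j hj
          show ss ((B * τ + j) / B) ((B * τ + j) % B) = ss τ j
          rw [Nat.mul_add_div hBpos, Nat.div_eq_of_lt hj, Nat.mul_add_mod, Nat.mod_eq_of_lt hj]
          rfl
      rw [e]
      exact runMem_mono G H F B ih h
  refine ⟨σ, fun h => (hstart h).trans (by omega), fun T v => ?_⟩
  obtain ⟨c, hcc, hv, hmu⟩ := htop v
  refine ⟨host c, hF c, ?_⟩
  rcases Nat.eq_zero_or_pos T with rfl | hT
  · rw [Nat.mul_zero]
    exact hI (host c) ⟨c, hcc, rfl, by rw [hv]⟩
  · have h1 : Item.state v T ∈ MM (S * T + mu c + 1) (host c) :=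
      Or.inr (Or.inl ⟨c, T, hcc, rfl, by omega, by rw [hv]⟩)
    refine memory_mono G H F σ ?_ _ (hmain _ _ h1)
    have h2 : S * T + mu c + 1 ≤ (2 * S + 1) * T := by
      have : S + 1 ≤ (S + 1) * T := Nat.le_mul_of_pos_right _ hT
      calc S * T + mu c + 1 ≤ S * T + (S + 1) := by omega
        _ ≤ S * T + (S + 1) * T := by omega
        _ = (2 * S + 1) * T := by ring
    calc B * (S * T + mu c + 1) ≤ B * ((2 * S + 1) * T) := Nat.mul_le_mul_left _ h2
      _ = (B * (2 * S + 1)) * T := by ring
      _ ≤ (K0 + B * (2 * S + 1)) * T := Nat.mul_le_mul_right _ (by omega)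

theorem encard_near_le (D : ℕ) (hH : ∀ x, {y | H.Adj x y}.encard ≤ D) (R : ℕ) (x : W) :
    {y | Near H F R y x}.encard ≤ ((D + 1) ^ R : ℕ) := by
  have key : ∀ R, ∀ x, {y | Near H F R x y}.encard ≤ ((D + 1) ^ R : ℕ) := by
    intro R
    induction R with
    | zero =>
      intro x
      refine (encard_le_encard (t := {x}) ?_).trans (by simp)
      intro y hy
      exact (near_zero hy).symm
    | succ R ih =>
      intro x
      rw [pow_succ]
      refine encard_le_mul {y | Near H F R x y} (fun y => insert y {z | H.Adj y z})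
        (fun _ z => z) ((D + 1) ^ R) (D + 1) (ih x) ?_ _ ?_
      · intro y _
        refine (encard_insert_le _ _).trans ?_
        push_cast
        exact add_le_add (hH y) le_rfl
      · rintro z hz
        cases hz with
        | refl hx' => exact ⟨x, Near.refl hx' _, x, mem_insert _ _, rfl⟩
        | step h4 h5 h6 => exact ⟨_, h4, z, mem_insert_of_mem _ h6, rfl⟩
  refine (encard_le_encard ?_).trans (key R x)
  intro y hy
  exact hy.symm

/-- version with a degree bound of the host network -/
theorem emulates_of_copies' [Nonempty V] {C : Type*} (role : C → V) (host : C → W) (mu : C → ℕ)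
    (comp : C → Prop) (K0 D R S : ℕ) (hS : 1 ≤ S)
    (hF : ∀ c, host c ∉ F)
    (hK : ∀ x, {c | host c = x}.encard ≤ K0)
    (hG : ∀ v, {u | G.Adj v u}.encard ≤ D)
    (hH : ∀ v, {u | H.Adj v u}.encard ≤ D)
    (hrelay : ∀ c, ¬ comp c → ∃ s, role s = role c ∧ Near H F R (host s) (host c) ∧
      mu s + 1 ≤ mu c)
    (hcomp : ∀ c, comp c → ∀ v, G.Adj v (role c) → ∃ s, role s = v ∧
      Near H F R (host s) (host c) ∧ mu s + 1 ≤ S + mu c)
    (htop : ∀ v, ∃ c, comp c ∧ role c = v ∧ mu c ≤ S) :
    Emulates G H F (K0 + (K0 + K0 * D + R * (((D + 1) ^ R * K0) * D)) * (2 * S + 1)) := by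
  refine emulates_of_copies G H F role host mu comp K0 ((D + 1) ^ R * K0) D R S hS hF hK ?_ hG
    hrelay hcomp htop
  intro x
  refine encard_le_mul {y | Near H F R y x} (fun y => {c | host c = y}) (fun _ c => c)
    ((D + 1) ^ R) K0 (encard_near_le H F D hH R x) (fun y _ => hK y) _ ?_
  intro c hc
  exact ⟨host c, hc, c, rfl, rfl⟩

theorem butterfly_degree (n : ℕ) (a : Node n) : {b | (butterfly n).Adj a b}.encard ≤ 4 := by
  classical
  -- a neighbour is determined by the direction and the bit of the changed coordinate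
  have h : {b | (butterfly n).Adj a b} ⊆
      {b | Up a b} ∪ {b | Up b a} := fun b hb => hb
  have h2' : (univ : Set Bool).encard ≤ 2 := by
    rw [encard_univ]; simp
  have h1 : {b : Node n | Up a b}.encard ≤ 2 := by
    refine le_trans (encard_le_encard (t := (fun s : Bool => if ha : a.2.val < n then
      (Function.update a.1 ⟨a.2.val, ha⟩ s, (⟨a.2.val + 1, by omega⟩ : Fin (n + 1)))
      else a) '' univ) ?_) ((encard_image_le _ _).trans h2')
    rintro b ⟨hb1, hb2⟩
    have ha : a.2.val < n := by have := b.2.isLt; omega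
    refine ⟨b.1 ⟨a.2.val, ha⟩, mem_univ _, ?_⟩
    simp only [ha, dif_pos]
    refine Prod.ext ?_ (Fin.ext hb1.symm)
    funext j
    by_cases hj : j = ⟨a.2.val, ha⟩
    · subst hj; simp
    · simp only [Function.update_of_ne hj]
      exact (hb2 j (fun h => hj (Fin.ext h))).symm
  have h2 : {b : Node n | Up b a}.encard ≤ 2 := by
    refine le_trans (encard_le_encard (t := (fun s : Bool => if ha : a.2.val - 1 < n then
      (Function.update a.1 ⟨a.2.val - 1, ha⟩ s, (⟨a.2.val - 1, by omega⟩ : Fin (n + 1)))
      else a) '' univ) ?_) ((encard_image_le _ _).trans h2')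
    rintro b ⟨hb1, hb2⟩
    have ha : a.2.val - 1 < n := by have := a.2.isLt; omega
    refine ⟨b.1 ⟨a.2.val - 1, ha⟩, mem_univ _, ?_⟩
    simp only [ha, dif_pos]
    refine Prod.ext ?_ (Fin.ext (by simp only; omega))
    funext j
    by_cases hj : j = ⟨a.2.val - 1, ha⟩
    · subst hj; simp
    · simp only [Function.update_of_ne hj]
      exact hb2 j (fun h => hj (Fin.ext (by simp only; omega)))
  refine (encard_le_encard h).trans ((encard_union_le _ _).trans ?_)
  calc {b : Node n | Up a b}.encard + {b : Node n | Up b a}.encard ≤ 2 + 2 := add_le_add h1 h2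
    _ = 4 := by norm_num

/-- Static redundant emulations of the butterfly: constant number of copies per host, sources within
constant distance, constant period. -/
theorem butterfly_emulates (n : ℕ) (F : Set (Node n)) {C : Type*} (role host : C → Node n)
    (mu : C → ℕ) (comp : C → Prop) (K0 R S : ℕ) (hS : 1 ≤ S)
    (hF : ∀ c, host c ∉ F)
    (hK : ∀ x, {c | host c = x}.encard ≤ K0)
    (hrelay : ∀ c, ¬ comp c → ∃ s, role s = role c ∧ Near (butterfly n) F R (host s) (host c) ∧
      mu s + 1 ≤ mu c)
    (hcomp : ∀ c, comp c → ∀ v, (butterfly n).Adj v (role c) → ∃ s, role s = v ∧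
      Near (butterfly n) F R (host s) (host c) ∧ mu s + 1 ≤ S + mu c)
    (htop : ∀ v, ∃ c, comp c ∧ role c = v ∧ mu c ≤ S) :
    Emulates (butterfly n) (butterfly n) F
      (K0 + (K0 + K0 * 4 + R * ((5 ^ R * K0) * 4)) * (2 * S + 1)) :=
  emulates_of_copies' (butterfly n) (butterfly n) F role host mu comp K0 4 R S hS hF hK
    (fun v => by exact_mod_cast butterfly_degree n v) (fun v => by exact_mod_cast butterfly_degree n v)
    hrelay hcomp htop

end Pool.Agent.Bfly
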