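import Pool.Agent.Lib.MP_d71b33_lc_h91.Static

/-!
# Digits, sites, cores, K-sparse systems (MP_d71b33_lc, deterministic part: interface)
-/

namespace Pool.Agent.Bfly

/-- rows of the butterfly -/
abbrev Rw (n : ℕ) : Type := Fin n → Bool

/-- the `j`-th bit of a row (`false` if `j` is out of range) -/
def bit {n : ℕ} (x : Rw n) (j : ℕ) : Bool := if h : j < n then x ⟨j, h⟩ else false

/-- `x` and `y` agree outside the bits `p, …, q - 1` -/
def AgOut {n : ℕ} (p q : ℕ) (x y : Rw n) : Prop :=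
  ∀ j : Fin n, (j.val < p ∨ q ≤ j.val) → x j = y j

/-- replace the bits `p, …, q - 1` of `x` by those of `v` -/
def wr {n : ℕ} (p q : ℕ) (x v : Rw n) : Rw n := fun j => if p ≤ j.val ∧ j.val < q then v j else x j

/-- the node with row `x` at level `ℓ` -/
def nd {n : ℕ} (x : Rw n) (ℓ : ℕ) : Node n := (x, ⟨min ℓ n, by omega⟩)

/-- A subdivision of the bits `0, …, n-1` into `m` digits; digit `k` consists of the bits
`lev k, …, lev (k+1) - 1`. `rb k` is the role bit and `sb k` the signature bit of digit `k`; they are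
neither the first nor the last bit of the digit. -/
structure Frame (n : ℕ) where
  g : ℕ
  m : ℕ
  lev : ℕ → ℕ
  rb : ℕ → ℕ
  sb : ℕ → ℕ
  five_le_g : 5 ≤ g
  m_pos : 0 < m
  lev_zero : lev 0 = 0
  lev_m : lev m = n
  lev_lo : ∀ k, k < m → lev k + g ≤ lev (k + 1)
  lev_hi : ∀ k, k < m → lev (k + 1) ≤ lev k + 2 * g
  rb_lo : ∀ k, k < m → lev k < rb k
  rb_hi : ∀ k, k < m → rb k + 1 < lev (k + 1)
  sb_lo : ∀ k, k < m → lev k < sb k
  sb_hi : ∀ k, k < m → sb k + 1 < lev (k + 1)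
  rb_ne_sb : ∀ k, k < m → rb k ≠ sb k

/-- A core of scale `i`: the sub-butterfly between the digit boundaries `s` and `e` whose rows agree
with `b` outside the digits `s, …, e - 1`. -/
@[ext]
structure Core (n : ℕ) where
  i : ℕ
  s : ℕ
  e : ℕ
  b : Rw n

/-! constants (functions of the digit size `g`), in units of the half scale length `h i` -/

/-- room next to a wall (`γ`) = small offset of the turning point of a conversion -/
def csm (g : ℕ) : ℕ := 24 * g + 8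
/-- length of the T-windows -/
def tau (g : ℕ) : ℕ := 2 * g * (csm g + 12)
/-- big offset of the turning point of a conversion -/
def cbg (g : ℕ) : ℕ := 2 * tau g + csm g + 40
/-- windows of K-sparsity -/
def cR (g : ℕ) : ℕ := 8 * cbg g

/-- A K-sparse system of cores covering the faulty nodes. The scale lengths are `h0 * M ^ i`
(half lengths `h i`); `o` is the offset of the grids of walls. -/
structure Sys (n : ℕ) extends Frame n where
  K : ℕ
  M : ℕ
  h0 : ℕ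
  top : ℕ
  o : ℕ
  /-- faulty nodes -/
  F : Set (Node n)
  cores : Set (Core n)
  /-- `ty Q = true`: the T-window of the zone of `Q` lies below (larger digit indices) -/
  ty : Core n → Bool
  h0_big : 4 ≤ h0
  M_even : 2 ∣ M
  M_big : 16 * cbg g ≤ M
  K_small : 2 * K < 2 ^ (g - 2)
  core_top : ∀ Q ∈ cores, Q.i ≤ top
  core_lt : ∀ Q ∈ cores, Q.s < Q.e
  core_le : ∀ Q ∈ cores, Q.e ≤ m
  /-- the upper wall is on the grid of the scale and far from 0 -/
  core_s : ∀ Q ∈ cores, Q.s = 0 ∨ ((Q.s + o) % (2 * (h0 * M ^ Q.i)) = h0 * M ^ Q.i ∧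
    (csm g + 4) * (h0 * M ^ Q.i) ≤ Q.s)
  /-- the lower wall is on the grid of the scale and far from `m` -/
  core_e : ∀ Q ∈ cores, Q.e = m ∨ ((Q.e + o) % (2 * (h0 * M ^ Q.i)) = h0 * M ^ Q.i ∧
    Q.e + (csm g + 4) * (h0 * M ^ Q.i) ≤ m)
  core_len : ∀ Q ∈ cores, Q.e ≤ Q.s + (csm g + 8) * (h0 * M ^ Q.i)
  core_len' : ∀ Q ∈ cores, Q.s ≠ 0 → Q.e ≠ m → Q.e ≤ Q.s + 4 * (h0 * M ^ Q.i)
  /-- room on the side of the T-window -/
  ty_true : ∀ Q ∈ cores, ty Q = true → Q.e + (cbg g + 8) * (h0 * M ^ Q.i) ≤ m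
  ty_false : ∀ Q ∈ cores, ty Q = false → (cbg g + 8) * (h0 * M ^ Q.i) ≤ Q.s
  /-- K-sparsity -/
  sparse : ∀ (i p q : ℕ) (x : Rw n), q ≤ m → q ≤ p + cR g * (h0 * M ^ i) →
    {Q | Q ∈ cores ∧ Q.i = i ∧ p ≤ Q.s ∧ Q.e ≤ q ∧ AgOut (lev p) (lev q) x Q.b}.encard ≤ K
  /-- every closed cell (digit `k`, row of `v`) containing a faulty node is contained in a core -/
  cover : ∀ v ∈ F, ∀ k, k < m → lev k ≤ v.2.val → v.2.val ≤ lev (k + 1) →
    ∃ Q ∈ cores, Q.s ≤ k ∧ k + 1 ≤ Q.e ∧ AgOut (lev Q.s) (lev Q.e) v.1 Q.b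

namespace Sys

variable {n : ℕ} (S : Sys n)

/-- half length of scale `i` -/
def h (i : ℕ) : ℕ := S.h0 * S.M ^ i

/-- the grid of possible walls of scale `i` -/
def grid (i k : ℕ) : Prop := (k + S.o) % (2 * S.h i) = S.h i

/-- node `v` lies in the (closed) core `Q` -/
def memN (Q : Core n) (v : Node n) : Prop :=
  S.lev Q.s ≤ v.2.val ∧ v.2.val ≤ S.lev Q.e ∧ AgOut (S.lev Q.s) (S.lev Q.e) v.1 Q.b

/-- site `(x,k)` (row `x`, digit boundary `k`) lies in the (closed) core `Q` -/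
def mem (Q : Core n) (x : Rw n) (k : ℕ) : Prop :=
  Q.s ≤ k ∧ k ≤ Q.e ∧ AgOut (S.lev Q.s) (S.lev Q.e) x Q.b

/-- free nodes -/
def freeN (v : Node n) : Prop := ∀ Q ∈ S.cores, ¬ S.memN Q v

/-- free sites -/
def free (x : Rw n) (k : ℕ) : Prop := ∀ Q ∈ S.cores, ¬ S.mem Q x k

/-- upper and lower wall of the zone of `Q` (margin `4 h`) -/
def zs (Q : Core n) : ℕ := if Q.s = 0 then 0 else Q.s - 4 * S.h Q.i
def ze (Q : Core n) : ℕ := if Q.e = S.m then S.m else Q.e + 4 * S.h Q.i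

/-- the zone of `Q` contains the row `w` -/
def inZ (Q : Core n) (w : Rw n) : Prop := AgOut (S.lev (S.zs Q)) (S.lev (S.ze Q)) w Q.b

/-- number of bits of the zone -/
def nb (Q : Core n) : ℕ := S.lev (S.ze Q) - S.lev (S.zs Q)

/-- the interval `[it Q, ib Q)` of digits of the T-structure of `Q` -/
def it (Q : Core n) : ℕ := if S.ty Q then S.zs Q else S.zs Q - tau S.g * S.h Q.i
def ib (Q : Core n) : ℕ := if S.ty Q then S.ze Q + tau S.g * S.h Q.i else S.ze Q

/-- the first digit of the T-window (it has `nb Q` digits) -/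
def tw (Q : Core n) : ℕ := if S.ty Q then S.ze Q else S.zs Q - S.nb Q

/-- the marker digit -/
def mkd (Q : Core n) : ℕ := if S.ty Q then S.ib Q - 1 else S.it Q

/-- the digit boundary where the T-copies of the roles at level `ℓ` are -/
def tl (Q : Core n) (ℓ : ℕ) : ℕ := S.tw Q + (ℓ - S.lev (S.zs Q))

/-- the rows of the T-structure of `Q` which represent the row `w` -/
def InR (Q : Core n) (w x : Rw n) : Prop :=
  AgOut (S.lev (S.it Q)) (S.lev (S.ib Q)) x w ∧
  (∀ d, S.it Q ≤ d → d < S.ib Q → bit x (S.sb d) = decide (d = S.mkd Q)) ∧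
  (∀ j, j < S.nb Q → bit x (S.rb (S.tw Q + j)) = bit w (S.lev (S.zs Q) + j))

/-- roles computed by the T-structure of `Q`: strictly inside the zone, not covered by a core of
larger scale -/
def hosted (Q : Core n) (v : Node n) : Prop :=
  S.inZ Q v.1 ∧ (Q.s = 0 ∨ S.lev (S.zs Q) < v.2.val) ∧ (Q.e = S.m ∨ v.2.val < S.lev (S.ze Q)) ∧
  ∀ P ∈ S.cores, Q.i < P.i → ¬ S.memN P v

/-- `u` is at a special level of the zone of `Q` -/
def special (Q : Core n) (u : Node n) : Prop :=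
  ∃ β, S.it Q ≤ β ∧ β ≤ S.ib Q ∧ S.h Q.i ∣ β + S.o ∧ u.2.val = S.lev β

/-- relay sites of the role `u` in T-structures -/
def PR (u : Node n) : Set (Node n) :=
  {a | ∃ Q ∈ S.cores, S.inZ Q u.1 ∧ ∃ k, S.it Q ≤ k ∧ k ≤ S.ib Q ∧ a.2.val = S.lev k ∧
    S.InR Q u.1 a.1 ∧ (S.special Q u ∨ (k ≤ S.tl Q u.2.val + 1 ∧ S.tl Q u.2.val ≤ k + 1 ∧
      S.lev (S.zs Q) ≤ u.2.val ∧ u.2.val ≤ S.lev (S.ze Q)))}

/-- signature pattern of a run downwards from the boundary `p` to `k`: marker at digit `p` -/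
def sgD (p k : ℕ) (x : Rw n) : Prop := ∀ d, p ≤ d → d < k → bit x (S.sb d) = decide (d = p)

/-- signature pattern of a run upwards from the boundary `q` to `k`: marker at digit `q - 1` -/
def sgU (k q : ℕ) (x : Rw n) : Prop := ∀ d, k ≤ d → d < q → bit x (S.sb d) = decide (d + 1 = q)

/-- `β` is a lower wall of the core or of the zone of `Y`, and the row `w` is known below `β` -/
def lowW (Y : Core n) (β : ℕ) (w : Rw n) : Prop :=
  (β = Y.e ∨ β = S.ze Y) ∧ Y.e ≠ S.m ∧ S.inZ Y w ∧ ∀ j : Fin n, S.lev β ≤ j.val → w j = Y.b j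

/-- A-run (downwards) of a home, towards the turning point of `Y`; the marker is at the digit `β`
(import) or `β + 1` (export: the run starts at the boundary `β + 1`) -/
def PAh (u : Node n) : Set (Node n) :=
  {a | ∃ Y ∈ S.cores, ∃ β, S.lowW Y β u.1 ∧ u.2.val = S.lev β ∧
    ∃ p k, (p = β ∨ p = β + 1) ∧ p ≤ k ∧ β < k ∧ k ≤ β + cbg S.g * S.h Y.i ∧ k ≤ S.m ∧
      a.2.val = S.lev k ∧ AgOut (S.lev β) (S.lev k) a.1 u.1 ∧ S.sgD p k a.1}

/-- A-run (downwards) of the T-structure of `X`, not longer than the scale of `X` -/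
def PAe (u : Node n) : Set (Node n) :=
  {a | ∃ X ∈ S.cores, S.inZ X u.1 ∧ S.special X u ∧
    ∃ k, S.ib X < k ∧ k ≤ S.ib X + cbg S.g * S.h X.i ∧ k ≤ S.m ∧ a.2.val = S.lev k ∧
      AgOut (S.lev (S.it X)) (S.lev k) a.1 u.1 ∧ S.sgD (S.ib X) k a.1 ∧
      (∀ j, j < S.nb X → bit a.1 (S.rb (S.tw X + j)) = bit u.1 (S.lev (S.zs X) + j))}

/-- A-run (downwards) of the T-structure of `X` towards the turning point of `Y` of larger scale -/
def PAs (u : Node n) : Set (Node n) :=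
  {a | ∃ X ∈ S.cores, ∃ Y ∈ S.cores, X.i < Y.i ∧ S.inZ X u.1 ∧ S.special X u ∧
    ∃ β, S.lowW Y β u.1 ∧ u.2.val = S.lev β ∧ S.it X ≤ β ∧ β ≤ S.ib X ∧
    ∃ k, S.ib X < k ∧ k ≤ β + cbg S.g * S.h Y.i ∧ k ≤ S.m ∧ a.2.val = S.lev k ∧
      AgOut (S.lev (S.it X)) (S.lev k) a.1 u.1 ∧ S.sgD (S.ib X) k a.1 ∧
      (∀ j, j < S.nb X → bit a.1 (S.rb (S.tw X + j)) = bit u.1 (S.lev (S.zs X) + j))}

/-- the B-run condition: rows at the boundary `k` of the B-run with turning point `q` (runs upwards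
from `q` to `p`), record of the row `w` of the zone of `Y` just above `q` -/
def InB (Y : Core n) (p q k : ℕ) (w x : Rw n) : Prop :=
  AgOut (S.lev p) (S.lev q) x w ∧ S.sgU k q x ∧
  ∀ j, j < S.nb Y → bit x (S.rb (q - S.nb Y + j)) = bit w (S.lev (S.zs Y) + j)

/-- B-runs (turning point below) -/
def PB (u : Node n) : Set (Node n) :=
  {a | ∃ Y ∈ S.cores, ∃ β c, (c = csm S.g ∨ c = cbg S.g) ∧
    ((β = Y.s ∨ β = S.zs Y) ∧ Y.s ≠ 0 ∨ (β = Y.e ∨ β = S.ze Y) ∧ Y.e ≠ S.m) ∧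
    S.inZ Y u.1 ∧ u.2.val = S.lev β ∧ β + c * S.h Y.i ≤ S.m ∧
    ∃ k, β - cbg S.g * S.h Y.i ≤ k ∧ k ≤ β + c * S.h Y.i ∧ a.2.val = S.lev k ∧
      S.InB Y (β - cbg S.g * S.h Y.i) (β + c * S.h Y.i) k u.1 a.1}

/-- all conversion sites with runs turning below -/
def PD (u : Node n) : Set (Node n) := S.PAh u ∪ S.PAe u ∪ S.PAs u ∪ S.PB u

end Sys

/-! ### Reflection of the butterfly -/

/-- reversed row -/
def rv {n : ℕ} (x : Rw n) : Rw n := fun j => x (Fin.rev j)

/-- reflected node -/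
def rf {n : ℕ} (v : Node n) : Node n := (rv v.1, Fin.rev v.2)

/-- reflected core -/
def Core.refl {n : ℕ} (m : ℕ) (Q : Core n) : Core n := ⟨Q.i, m - Q.e, m - Q.s, rv Q.b⟩

/-! ### Chains of hops and the transport theorem -/

/-- A chain of `r` hops inside `P`; each hop is a path of at most `R` edges avoiding `F`. -/
inductive Chain {W : Type*} (H : SimpleGraph W) (F : Set W) (P : Set W) (R : ℕ) : ℕ → W → W → Prop
  | refl {x : W} (hx : x ∈ P) : Chain H F P R 0 x x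
  | step {r : ℕ} {x y z : W} (h : Chain H F P R r x y) (hyz : Near H F R y z) (hz : z ∈ P) :
      Chain H F P R (r + 1) x z

end Pool.Agent.Bfly
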